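import Pool.Agent.CR257.Stmts

set_option autoImplicit false

namespace Pool.Agent.CR257

open Polynomial

/-- The answer for a finite local ring with principal maximal ideal. -/
theorem asm (hSub : TaskSub) (hUnitD : TaskUnitD) (hUp : TaskUp) (hRed : TaskRed)
    (hFold : TaskFold) (hCyc : TaskCyc) (hCard : TaskCard) (hFib : TaskFib)
    (R : Type) [CommRing R] [Finite R] [IsLocalRing R] (γ : R) (e p k m : ℕ)
    [NeZero (p ^ k * m)]
    (hγ : IsLocalRing.maximalIdeal R = Ideal.span {γ})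
    (he : IsLeast {i : ℕ | 1 ≤ i ∧ γ ^ i = 0} e) (hp : p.Prime)
    (hpq : p ∣ Nat.card (IsLocalRing.ResidueField R)) (hm : ¬ p ∣ m) :
    (∀ a : R, a ∉ D p k R → cc (p ^ k * m) R a = 0) ∧
    ∀ a ∈ D p k R, IsUnit a → cc (p ^ k * m) R a * {z : R | z ∈ D p k R ∧ IsUnit z}.ncard =
      Nat.card (IsLocalRing.ResidueField R) ^ (e * (p ^ k * m) - m) *
        ∏ d ∈ m.divisors, (Nat.card (IsLocalRing.ResidueField R) ^
          orderOf (Nat.card (IsLocalRing.ResidueField R) : ZMod d) - 1) ^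
          (Nat.totient d / orderOf (Nat.card (IsLocalRing.ResidueField R) : ZMod d)) := by
  have hm0 : m ≠ 0 := by rintro rfl; exact hm (dvd_zero p)
  have hm1 : 1 ≤ m := Nat.one_le_iff_ne_zero.2 hm0
  haveI : NeZero m := ⟨hm0⟩
  haveI : Fact p.Prime := ⟨hp⟩
  haveI hF : Finite (IsLocalRing.ResidueField R) :=
    Finite.of_surjective _ (IsLocalRing.residue_surjective (R := R))
  haveI : Fintype (IsLocalRing.ResidueField R) := Fintype.ofFinite _
  have hp0 : ((p : ℕ) : IsLocalRing.ResidueField R) = 0 := by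
    obtain ⟨n, hr, hn⟩ := FiniteField.card (IsLocalRing.ResidueField R)
      (ringChar (IsLocalRing.ResidueField R))
    rw [Nat.card_eq_fintype_card, hn] at hpq
    have h1 : p ∣ ringChar (IsLocalRing.ResidueField R) := hp.dvd_of_dvd_pow hpq
    have h2 : p = ringChar (IsLocalRing.ResidueField R) := (Nat.prime_dvd_prime_iff_eq hp hr).1 h1
    rw [h2]
    exact ringChar.Nat.cast_ringChar
  haveI : CharP (IsLocalRing.ResidueField R) p := (CharP.charP_iff_prime_eq_zero hp).2 hp0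
  have hpm : (p : R) ∈ IsLocalRing.maximalIdeal R := by
    rw [← IsLocalRing.residue_eq_zero_iff, map_natCast]
    exact hp0
  have hnil : IsNilpotent (p : R) := by
    rw [hγ, Ideal.mem_span_singleton] at hpm
    obtain ⟨c, hc⟩ := hpm
    exact ⟨e, by rw [hc, mul_pow, he.1.2, zero_mul]⟩
  have hmu : IsUnit (m : R) := by
    by_contra h
    have h1 : (m : R) ∈ IsLocalRing.maximalIdeal R := (IsLocalRing.mem_maximalIdeal _).2 h
    rw [← IsLocalRing.residue_eq_zero_iff, map_natCast,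
      CharP.cast_eq_zero_iff (IsLocalRing.ResidueField R) p] at h1
    exact hm h1
  have hHD : H (p ^ k * m) R ⊆ D p k R := by
    rintro y ⟨f, rfl⟩
    exact hSub p k m hp hm1 R f
  have hDH : ∀ y ∈ D p k R, IsUnit y → y ∈ H (p ^ k * m) R := fun y hy hu =>
    hUp (p ^ k) m (Nat.one_le_pow _ _ hp.pos) hm1 R hmu (hUnitD p k R hnil y hy hu)
  refine ⟨fun a ha => (hFib (p ^ k * m) R).1 a (fun h => ha (hHD h)), fun a ha hu => ?_⟩
  have h1 := (hFib (p ^ k * m) R).2 a (hDH a ha hu) hu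
  have h2 : {z : R | z ∈ H (p ^ k * m) R ∧ IsUnit z} = {z : R | z ∈ D p k R ∧ IsUnit z} := by
    ext z
    exact ⟨fun h => ⟨hHD h.1, h.2⟩, fun h => ⟨hDH z h.1 h.2, h.2⟩⟩
  rw [h2] at h1
  have hco : m.Coprime (Nat.card (IsLocalRing.ResidueField R)) := by
    obtain ⟨n, hr, hn⟩ := FiniteField.card (IsLocalRing.ResidueField R) p
    rw [Nat.card_eq_fintype_card, hn]
    exact (((Nat.Prime.coprime_iff_not_dvd hp).2 hm).symm).pow_right _
  have e1 := hRed (p ^ k * m) R
  have e2 : uu (p ^ k * m) (IsLocalRing.ResidueField R) =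
      Nat.card (IsLocalRing.ResidueField R) ^ (p ^ k * m - m) *
        uu m (IsLocalRing.ResidueField R) := hFold p k m (IsLocalRing.ResidueField R) hp
  have e3 : uu m (IsLocalRing.ResidueField R) = ∏ d ∈ m.divisors,
      (Nat.card (IsLocalRing.ResidueField R) ^
        orderOf (Nat.card (IsLocalRing.ResidueField R) : ZMod d) - 1) ^
        (Nat.totient d / orderOf (Nat.card (IsLocalRing.ResidueField R) : ZMod d)) :=
    hCyc m (IsLocalRing.ResidueField R) hco
  rw [h1, e1, e2, e3, (hCard R γ e hγ he).1, ← mul_assoc, ← pow_mul, ← pow_add]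
  congr 2
  have he1 : 1 ≤ e := he.1.1
  have hmn : m ≤ p ^ k * m := Nat.le_mul_of_pos_left m (Nat.pow_pos hp.pos)
  obtain ⟨e', rfl⟩ : ∃ e', e = e' + 1 := ⟨e - 1, by omega⟩
  rw [Nat.add_sub_cancel, add_mul, one_mul]
  omega

/-- In characteristic `p`, `1 + γ` is not attained. -/
theorem not_mem (R : Type) [CommRing R] [IsLocalRing R] (γ : R) (p k : ℕ)
    (hγ : IsLocalRing.maximalIdeal R = Ideal.span {γ}) (hn : IsNilpotent γ) (h0 : γ ≠ 0)
    (hp : p.Prime) (hk : 1 ≤ k) (hc : (p : R) = 0) : 1 + γ ∉ D p k R := by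
  rintro ⟨b, hb⟩
  haveI : CharP R p := (CharP.charP_iff_prime_eq_zero hp).2 hc
  haveI : Fact p.Prime := ⟨hp⟩
  have h1 : ∑ j ∈ Finset.range (k + 1), (p : R) ^ j * b j ^ (p ^ (k - j)) = b 0 ^ (p ^ k) := by
    rw [Finset.sum_eq_single 0]
    · simp
    · intro j _ hj
      rw [hc, zero_pow hj, zero_mul]
    · intro h
      exact absurd (Finset.mem_range.2 (Nat.succ_pos k)) h
  rw [h1] at hb
  have h2 : (b 0 - 1) ^ (p ^ k) = γ := by
    rw [sub_pow_char_pow, one_pow, ← hb]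
    ring
  have h3 : b 0 - 1 ∈ IsLocalRing.maximalIdeal R := by
    have : (b 0 - 1) ^ (p ^ k) ∈ IsLocalRing.maximalIdeal R := by
      rw [h2, hγ]
      exact Ideal.mem_span_singleton_self γ
    exact (Ideal.IsMaximal.isPrime' _).mem_of_pow_mem _ this
  rw [hγ, Ideal.mem_span_singleton] at h3
  obtain ⟨c, hc'⟩ := h3
  rw [hc', mul_pow] at h2
  obtain ⟨t, ht⟩ : ∃ t, p ^ k = t + 2 := ⟨p ^ k - 2, by
    have h8 : p ^ 1 ≤ p ^ k := Nat.pow_le_pow_right hp.pos hk
    rw [pow_one] at h8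
    have := hp.two_le
    omega⟩
  rw [ht] at h2
  have h4 : γ * (1 - γ * (γ ^ t * c ^ (t + 2))) = 0 := by
    have : γ ^ (t + 2) * c ^ (t + 2) = γ * (γ * (γ ^ t * c ^ (t + 2))) := by ring
    rw [this] at h2
    linear_combination -h2
  have h5 : IsUnit (1 - γ * (γ ^ t * c ^ (t + 2))) := by
    have : IsNilpotent (γ * (γ ^ t * c ^ (t + 2))) := Commute.isNilpotent_mul_right (Commute.all _ _) hn
    exact this.isUnit_one_sub
  exact h0 ((h5.mul_left_eq_zero).1 h4)

end Pool.Agent.CR257
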