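import Pool.Agent.CR257.Stmts

set_option autoImplicit false

namespace Pool.Agent.CR257.Block

open Polynomial Pool.Agent.CR257

variable {A : Type} [CommRing A]

theorem coeff_part (p r : ℕ) (hp : 1 ≤ p) (f : A[X]) (s : ℕ) :
    (part p r f).coeff s = f.coeff (r + p * s) := by
  unfold part
  rw [finsetSum_coeff]
  simp only [coeff_C_mul, coeff_X_pow, mul_ite, mul_one, mul_zero]
  rw [Finset.sum_ite_eq]
  split_ifs with h
  · rfl
  · symm
    apply coeff_eq_zero_of_natDegree_lt
    simp only [Finset.mem_range, not_lt] at h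
    nlinarith

theorem part_add (p r : ℕ) (hp : 1 ≤ p) (f g : A[X]) : part p r (f + g) = part p r f + part p r g := by
  ext s
  simp only [coeff_part p r hp, coeff_add]

theorem part_X_zero (p : ℕ) (hp : 1 ≤ p) (g : A[X]) :
    part p 0 (X * g) = X * part p (p - 1) g := by
  ext s
  rcases s with _ | s
  · rw [coeff_part p 0 hp]; simp
  · rw [coeff_part p 0 hp, coeff_X_mul, coeff_part p _ hp,
      show 0 + p * (s + 1) = (p - 1 + p * s) + 1 by rw [mul_add]; omega, coeff_X_mul]

theorem part_X_succ (p r : ℕ) (hp : 1 ≤ p) (g : A[X]) :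
    part p (r + 1) (X * g) = part p r g := by
  ext s
  rw [coeff_part p _ hp, coeff_part p _ hp, show r + 1 + p * s = (r + p * s) + 1 by ring, coeff_X_mul]

/-- the matrix of `x` -/
noncomputable def W (A : Type) [CommRing A] (p : ℕ) : Matrix (Fin p) (Fin p) A[X] :=
  Matrix.of fun i j => if (i : ℕ) + 1 = j then 1 else if (i : ℕ) + 1 = p ∧ (j : ℕ) = 0 then X else 0

/-- the matrix of `g` -/
noncomputable def T (p : ℕ) (g : A[X]) : Matrix (Fin p) (Fin p) A[X] :=
  tw p (fun r => part p r g) (X : A[X])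

theorem T_apply (p : ℕ) (g : A[X]) (i j : Fin p) : T p g i j =
    if (i : ℕ) ≤ j then part p (j - i) g else X * part p (p + j - i) g := rfl

theorem T_add (p : ℕ) (hp : 1 ≤ p) (f g : A[X]) : T p (f + g) = T p f + T p g := by
  ext1 i j
  rw [Matrix.add_apply, T_apply, T_apply, T_apply]
  split_ifs
  · rw [part_add p _ hp]
  · rw [part_add p _ hp, mul_add]

theorem T_C (p : ℕ) (hp : 1 ≤ p) (a : A) : T p (C a) = algebraMap A (Matrix (Fin p) (Fin p) A[X]) a := by
  have h0 : ∀ r, r ≠ 0 → part p r (C a) = 0 := by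
    intro r hr
    ext s
    rw [coeff_part p r hp, coeff_C, if_neg (by omega), coeff_zero]
  have h1 : part p 0 (C a) = C a := by
    ext s
    rw [coeff_part p 0 hp, coeff_C, coeff_C]
    by_cases hs : s = 0
    · subst hs; simp
    · rw [if_neg hs, if_neg]
      have : 0 < p * s := Nat.mul_pos hp (Nat.pos_of_ne_zero hs)
      omega
  ext1 i j
  rw [T_apply, Matrix.algebraMap_matrix_apply]
  by_cases hij : i = j
  · subst hij
    rw [if_pos le_rfl, if_pos rfl, Nat.sub_self, h1]
    rfl
  · rw [if_neg hij]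
    have hij' : (i : ℕ) ≠ j := fun h => hij (Fin.ext h)
    split_ifs with h
    · exact h0 _ (by omega)
    · rw [h0 _ (by omega), mul_zero]

theorem W_mul (p : ℕ) (M : Matrix (Fin p) (Fin p) A[X]) (i j : Fin p) :
    (W A p * M) i j = if h : (i : ℕ) + 1 < p then M ⟨i + 1, h⟩ j else
      X * M ⟨0, by have := i.2; omega⟩ j := by
  rw [Matrix.mul_apply]
  split_ifs with h
  · rw [Finset.sum_eq_single (⟨i + 1, h⟩ : Fin p)]
    · simp [W]
    · intro l _ hl
      have h1 : (i : ℕ) + 1 ≠ l := fun h2 => hl (Fin.ext h2.symm)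
      have h3 : ¬ ((i : ℕ) + 1 = p ∧ (l : ℕ) = 0) := by omega
      simp [W, h1, h3]
    · intro h2; exact absurd (Finset.mem_univ _) h2
  · have hi : (i : ℕ) + 1 = p := by have := i.2; omega
    rw [Finset.sum_eq_single (⟨0, by have := i.2; omega⟩ : Fin p)]
    · have h4 : ¬ ((i : ℕ) + 1 = 0) := by omega
      have h5 : p ≠ 0 := by omega
      simp [W, hi, h5]
    · intro l _ hl
      have h1 : (i : ℕ) + 1 ≠ l := by have := l.2; omega
      have h3 : ¬ ((i : ℕ) + 1 = p ∧ (l : ℕ) = 0) := fun h4 => hl (Fin.ext h4.2)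
      simp [W, h1, h3]
    · intro h2; exact absurd (Finset.mem_univ _) h2

theorem T_X (p : ℕ) (hp : 1 ≤ p) (g : A[X]) : T p (X * g) = W A p * T p g := by
  ext1 i j
  rw [W_mul]
  have hi := i.2
  have hj := j.2
  split_ifs with h
  · rw [T_apply, T_apply]
    simp only
    by_cases h1 : (i : ℕ) + 1 ≤ j
    · rw [if_pos (by omega), if_pos h1, show (j : ℕ) - i = (j - (i + 1)) + 1 by omega,
        part_X_succ p _ hp]
    · rw [if_neg h1]
      by_cases h2 : (i : ℕ) ≤ j
      · rw [if_pos h2, show (j : ℕ) - i = 0 by omega, part_X_zero p hp]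
        congr 2
        omega
      · rw [if_neg h2, show p + (j : ℕ) - i = (p + j - (i + 1)) + 1 by omega, part_X_succ p _ hp]
  · rw [T_apply, T_apply]
    simp only
    rw [if_pos (Nat.zero_le _)]
    by_cases h2 : (i : ℕ) ≤ j
    · rw [if_pos h2, show (j : ℕ) - i = 0 by omega, part_X_zero p hp]
      congr 2
      omega
    · rw [if_neg h2, show p + (j : ℕ) - i = j + 1 by omega, part_X_succ p _ hp]
      congr 2

theorem T_eq (p : ℕ) (hp : 1 ≤ p) (g : A[X]) : T p g = aeval (W A p) g := by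
  induction g using Polynomial.induction_on with
  | C a => rw [T_C p hp, aeval_C]
  | add f g hf hg => rw [T_add p hp, hf, hg, map_add]
  | monomial n a h =>
    rw [show (C a * X ^ (n + 1) : A[X]) = X * (C a * X ^ n) by ring, T_X p hp, h]
    simp only [map_mul, aeval_X]

/-- the index map -/
def ix (p n : ℕ) (x : Fin p × ZMod n) : ZMod (p * n) := ((x.1 + p * x.2.val : ℕ) : ZMod (p * n))

theorem ix_bij (p n : ℕ) [NeZero n] [NeZero (p * n)] : Function.Bijective (ix p n) := by
  rw [Fintype.bijective_iff_surjective_and_card]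
  constructor
  · intro y
    have hy := ZMod.val_lt y
    have hp : 0 < p := Nat.pos_of_ne_zero (by rintro rfl; simp at hy)
    refine ⟨(⟨y.val % p, Nat.mod_lt _ hp⟩, ((y.val / p : ℕ) : ZMod n)), ?_⟩
    unfold ix
    simp only
    rw [ZMod.val_natCast, Nat.mod_eq_of_lt (a := y.val / p) (Nat.div_lt_of_lt_mul hy),
      Nat.mod_add_div, ZMod.natCast_val, ZMod.cast_id]
  · rw [Fintype.card_prod, Fintype.card_fin, ZMod.card, ZMod.card]

theorem ix_succ (p n : ℕ) [NeZero n] [NeZero (p * n)] (r : Fin p) (s : ZMod n) :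
    ix p n (r, s) + 1 = if h : (r : ℕ) + 1 < p then ix p n (⟨r + 1, h⟩, s) else
      ix p n (⟨0, by have := r.2; omega⟩, s + 1) := by
  split_ifs with h
  · unfold ix
    push_cast
    ring
  · have hr : (r : ℕ) + 1 = p := by have := r.2; omega
    have h2 : (s + 1).val = (s.val + 1) % n := by
      have : s + 1 = ((s.val + 1 : ℕ) : ZMod n) := by
        push_cast
        rw [ZMod.natCast_val, ZMod.cast_id]
      rw [this, ZMod.val_natCast]
    unfold ix
    simp only
    rw [h2, zero_add]
    have h3 : (((r : ℕ) + p * s.val : ℕ) : ZMod (p * n)) + 1 = ((p * (s.val + 1) : ℕ) : ZMod (p * n)) := by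
      have h4 : p * (s.val + 1) = (r + p * s.val) + 1 := by rw [mul_add, mul_one]; omega
      rw [h4]
      push_cast
      ring
    rw [h3]
    conv_lhs => rw [← Nat.mod_add_div (s.val + 1) n, mul_add]
    rw [Nat.cast_add, ← mul_assoc, Nat.cast_mul (p * n), ZMod.natCast_self, zero_mul, add_zero]

/-- the equivalence of the index sets -/
noncomputable def ie (p n : ℕ) [NeZero n] [NeZero (p * n)] : ZMod (p * n) ≃ Fin p × ZMod n :=
  (Equiv.ofBijective (ix p n) (ix_bij p n)).symm

/-- the block map -/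
noncomputable def Phi (A : Type) [CommRing A] (p n : ℕ) [NeZero n] :
    Matrix (Fin p) (Fin p) A[X] →ₐ[A] Matrix (Fin p × ZMod n) (Fin p × ZMod n) A :=
  (Matrix.compAlgEquiv (Fin p) (ZMod n) A A).toAlgHom.comp ((aeval (P n A)).mapMatrix)

theorem Phi_apply (p n : ℕ) [NeZero n] (M : Matrix (Fin p) (Fin p) A[X]) (x y : Fin p × ZMod n) :
    Phi A p n M x y = aeval (P n A) (M x.1 y.1) x.2 y.2 := rfl

theorem P_reindex (p n : ℕ) [NeZero n] [NeZero (p * n)] :
    Matrix.reindexAlgEquiv A A (ie p n) (P (p * n) A) = Phi A p n (W A p) := by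
  ext1 ⟨r, s⟩ ⟨r', s'⟩
  rw [Phi_apply]
  have h0 : Matrix.reindexAlgEquiv A A (ie p n) (P (p * n) A) (r, s) (r', s') =
      if ix p n (r', s') = ix p n (r, s) + 1 then 1 else 0 := rfl
  rw [h0, ix_succ]
  have hr' := r'.2
  split_ifs with h h1 h1
  · have h2 := (ix_bij p n).1 h1
    simp only [Prod.mk.injEq] at h2
    obtain ⟨rfl, rfl⟩ := h2
    simp [W]
  · by_cases h3 : (r : ℕ) + 1 = r'
    · have h4 : s ≠ s' := by
        rintro rfl
        apply h1
        congr 2
        exact Fin.ext h3.symm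
      simp [W, h3, h4]
    · have h4 : ¬ ((r : ℕ) + 1 = p ∧ (r' : ℕ) = 0) := by omega
      simp [W, h3, h4]
  · have h2 := (ix_bij p n).1 h1
    simp only [Prod.mk.injEq] at h2
    obtain ⟨h5, rfl⟩ := h2
    have h6 : (r' : ℕ) = 0 := by rw [h5]
    have h7 : (r : ℕ) + 1 = p := by have := r.2; omega
    have h8 : (r : ℕ) + 1 ≠ r' := by omega
    have h9 : W A p r r' = X := by
      simp only [W, Matrix.of_apply]
      rw [if_neg h8, if_pos ⟨h7, h6⟩]
    rw [h9, aeval_X]
    simp [P]
  · have h7 : (r : ℕ) + 1 = p := by have := r.2; omega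
    have h8 : (r : ℕ) + 1 ≠ r' := by omega
    by_cases h6 : (r' : ℕ) = 0
    · have h4 : ¬ s' = s + 1 := by
        rintro rfl
        apply h1
        congr 2
        exact Fin.ext h6
      have h9 : W A p r r' = X := by
        simp only [W, Matrix.of_apply]
        rw [if_neg h8, if_pos ⟨h7, h6⟩]
      rw [h9, aeval_X]
      simp [P, h4]
    · have h9 : W A p r r' = 0 := by
        simp only [W, Matrix.of_apply]
        rw [if_neg h8, if_neg (fun h => h6 h.2)]
      rw [h9, map_zero]
      rfl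

theorem main : TaskBlock := by
  intro p n hp hn A _ f
  haveI : NeZero n := ⟨by omega⟩
  haveI : NeZero (p * n) := ⟨(Nat.mul_pos hp hn).ne'⟩
  rw [dd_eq, dd_eq]
  have h1 : (aeval (P n A) (T p f).det).det = (Phi A p n (T p f)).det :=
    Matrix.det_det (M := T p f) (aeval (P n A)).toRingHom
  show _ = (aeval (P n A) (T p f).det).det
  rw [h1, T_eq p hp, ← aeval_algHom_apply, ← P_reindex,
    show aeval (Matrix.reindexAlgEquiv A A (ie p n) (P (p * n) A)) f =
      Matrix.reindexAlgEquiv A A (ie p n) (aeval (P (p * n) A) f) from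
      aeval_algHom_apply (Matrix.reindexAlgEquiv A A (ie p n)).toAlgHom (P (p * n) A) f,
    Matrix.det_reindexAlgEquiv]

end Pool.Agent.CR257.Block
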