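import Pool.Agent.CR257.Stmts

set_option autoImplicit false

namespace Pool.Agent.CR257

open Polynomial

private lemma P_pow (n : ℕ) [NeZero n] (R : Type) [CommRing R] (r : ℕ) :
    (P n R) ^ r = Matrix.of fun i j => if j = i + (r : ZMod n) then (1 : R) else 0 := by
  induction r with
  | zero =>
    ext i j
    simp [Matrix.one_apply, eq_comm]
  | succ r ih =>
    rw [pow_succ, ih]
    ext i j
    rw [Matrix.mul_apply, Finset.sum_eq_single (i + (r : ZMod n))]
    · simp only [P, Matrix.of_apply, Nat.cast_succ, if_true, one_mul, add_assoc]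
    · intro b _ hb
      simp only [Matrix.of_apply, if_neg hb, zero_mul]
    · intro h
      exact absurd (Finset.mem_univ _) h

private lemma cir_add {n : ℕ} {R : Type} [CommRing R] (a b : ZMod n → R) :
    cir (a + b) = cir a + cir b := by
  ext i j
  simp [cir]

private lemma smul_P_pow (n : ℕ) [NeZero n] (R : Type) [CommRing R] (r : ℕ) (c : R) :
    c • (P n R) ^ r = cir (fun d => if d = (r : ZMod n) then c else 0) := by
  rw [P_pow]
  ext i j
  simp only [cir, Matrix.smul_apply, Matrix.of_apply, smul_eq_mul, mul_ite, mul_one, mul_zero]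
  have : (j = i + (r : ZMod n)) ↔ (j - i = (r : ZMod n)) := by
    rw [sub_eq_iff_eq_add, add_comm]
  simp only [this]

theorem taskBridge : TaskBridge := by
  intro n _ R _
  refine ⟨?_, ?_, ?_⟩
  · rw [P_pow]
    ext i j
    simp [Matrix.one_apply, eq_comm]
  · intro a
    refine ⟨∑ c : ZMod n, C (a c) * X ^ c.val, ?_⟩
    rw [map_sum]
    simp only [map_mul, aeval_C, map_pow, aeval_X, ← Algebra.smul_def]
    simp only [smul_P_pow, ZMod.natCast_val, ZMod.cast_id', id_eq]
    ext i j
    simp [cir, Matrix.sum_apply]
  · intro f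
    induction f using Polynomial.induction_on' with
    | add f g hf hg =>
      obtain ⟨a, ha⟩ := hf
      obtain ⟨b, hb⟩ := hg
      exact ⟨a + b, by rw [map_add, ha, hb, cir_add]⟩
    | monomial k c =>
      exact ⟨_, by rw [aeval_monomial, ← Algebra.smul_def, smul_P_pow]⟩

end Pool.Agent.CR257
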