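import Pool.Agent.CR257.Stmts

/-! # TaskCard -/

set_option autoImplicit false

namespace Pool.Agent.CR257.Card

open Pool.Agent.CR257

/-- `γ^i R` as an additive group: number of elements -/
theorem step (R : Type) [CommRing R] [Finite R] [IsLocalRing R] (γ : R) (e : ℕ)
    (hm : IsLocalRing.maximalIdeal R = Ideal.span {γ}) (he : IsLeast {i : ℕ | 1 ≤ i ∧ γ ^ i = 0} e)
    (i : ℕ) (hi : i < e) :
    Nat.card (Ideal.span {γ ^ i} : Ideal R) =
      Nat.card (Ideal.span {γ ^ (i + 1)} : Ideal R) * Nat.card (IsLocalRing.ResidueField R) := by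
  -- the map R → span{γ^i}/span{γ^(i+1)}
  have hgi : γ ^ i ≠ 0 := by
    intro h0
    rcases Nat.eq_zero_or_pos i with h | h
    · subst h
      rw [pow_zero] at h0
      exact one_ne_zero h0
    · exact absurd (he.2 ⟨h, h0⟩) (by omega)
  let f : R →ₗ[R] R := LinearMap.mulLeft R (γ ^ i)
  let K : Ideal R := Ideal.span {γ ^ (i + 1)}
  -- comap of K under f is the maximal ideal
  have hcomap : Submodule.comap f K = IsLocalRing.maximalIdeal R := by
    ext x
    rw [Submodule.mem_comap]
    change γ ^ i * x ∈ K ↔ _
    rw [Ideal.mem_span_singleton']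
    constructor
    · rintro ⟨a, ha⟩
      by_contra hx
      have hu : IsUnit x := by
        by_contra hnu
        exact hx ((IsLocalRing.mem_maximalIdeal x).2 hnu)
      have h1 : γ ^ i * (x - a * γ) = 0 := by
        rw [mul_sub, ← ha]
        ring
      have hu2 : IsUnit (x - a * γ) := by
        by_contra hnu
        have h2 : x - a * γ ∈ IsLocalRing.maximalIdeal R := (IsLocalRing.mem_maximalIdeal _).2 hnu
        have h3 : a * γ ∈ IsLocalRing.maximalIdeal R := by
          rw [hm]
          exact Ideal.mul_mem_left _ _ (Ideal.mem_span_singleton_self γ)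
        have h4 := Ideal.add_mem _ h2 h3
        rw [sub_add_cancel] at h4
        exact hx h4
      exact hgi ((hu2.mul_left_eq_zero).1 h1)
    · intro hx
      rw [hm, Ideal.mem_span_singleton'] at hx
      obtain ⟨a, rfl⟩ := hx
      exact ⟨a, by ring⟩
  have hle : K ≤ Ideal.span {γ ^ i} := by
    rw [Ideal.span_singleton_le_span_singleton]
    exact pow_dvd_pow _ (Nat.le_succ i)
  -- surjective hom R → span{γ^i} ⧸ K'
  let N : Submodule R R := Ideal.span {γ ^ i}
  let g : R →ₗ[R] N := f.codRestrict N (fun x => by
    change γ ^ i * x ∈ Ideal.span {γ ^ i}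
    exact Ideal.mul_mem_right _ _ (Ideal.mem_span_singleton_self _))
  let K' : Submodule R N := Submodule.comap N.subtype K
  have hg : Function.Surjective g := by
    rintro ⟨y, hy⟩
    obtain ⟨a, ha⟩ := Ideal.mem_span_singleton'.1 hy
    refine ⟨a, ?_⟩
    apply Subtype.ext
    change γ ^ i * a = y
    rw [← ha, mul_comm]
  let q : R →ₗ[R] (N ⧸ K') := K'.mkQ.comp g
  have hq : Function.Surjective q := K'.mkQ_surjective.comp hg
  have hker : LinearMap.ker q = IsLocalRing.maximalIdeal R := by
    rw [← hcomap]
    ext x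
    rw [LinearMap.mem_ker, Submodule.mem_comap]
    change K'.mkQ (g x) = 0 ↔ _
    rw [Submodule.mkQ_apply, Submodule.Quotient.mk_eq_zero, Submodule.mem_comap]
    rfl
  have e1 : Nat.card (N ⧸ K') = Nat.card (IsLocalRing.ResidueField R) := by
    have h := (LinearMap.quotKerEquivOfSurjective q hq).toEquiv
    rw [← Nat.card_congr h, hker]
    rfl
  have e2 : Nat.card N = Nat.card K' * Nat.card (N ⧸ K') := by
    have h := Submodule.card_eq_card_quotient_mul_card K'
    rw [h, mul_comm]
  have e3 : Nat.card K' = Nat.card K := by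
    refine Nat.card_congr ?_
    exact (Submodule.comapSubtypeEquivOfLe hle).toEquiv
  change Nat.card N = Nat.card K * _
  rw [e2, e3, e1]

theorem main : TaskCard := by
  intro R _ _ _ γ e hm he
  have hz : Nat.card (Ideal.span {γ ^ e} : Ideal R) = 1 := by
    rw [he.1.2, Ideal.span_singleton_zero]
    exact Nat.card_unique
  have hpow : ∀ j, j ≤ e → Nat.card (Ideal.span {γ ^ (e - j)} : Ideal R) =
      Nat.card (IsLocalRing.ResidueField R) ^ j := by
    intro j
    induction j with
    | zero => intro _; rw [Nat.sub_zero, hz, pow_zero]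
    | succ j ih =>
      intro hj
      have h := step R γ e hm he (e - (j + 1)) (by omega)
      have h2 : e - (j + 1) + 1 = e - j := by omega
      rw [h2, ih (by omega)] at h
      rw [h, pow_succ]
  have h1 := he.1.1
  constructor
  · have h := hpow (e - 1) (by omega)
    have h2 : e - (e - 1) = 1 := by omega
    rw [h2, pow_one] at h
    rw [hm]
    exact h
  · have h := hpow e le_rfl
    rw [Nat.sub_self, pow_zero, Ideal.span_singleton_one] at h
    rw [← h]
    exact (Nat.card_congr (Submodule.topEquiv (R := R) (M := R)).toEquiv).symm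

end Pool.Agent.CR257.Card
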