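import Pool.Agent.CR257.Stmts

set_option autoImplicit false

namespace Pool.Agent.CR257.Chain

open Pool.Agent.CR257

theorem main : TaskChain := by
  classical
  intro R _ _ _ hch
  have hloc : IsLocalRing R := by
    refine IsLocalRing.of_nonunits_add fun a b ha hb => ?_
    have key : ∀ a b : R, b ∈ nonunits R → Ideal.span {a} ≤ Ideal.span {b} → a + b ∈ nonunits R := by
      intro a b hb hab hu
      have h1 : a ∈ Ideal.span {b} := hab (Ideal.mem_span_singleton_self a)
      have h2 : a + b ∈ Ideal.span {b} := Ideal.add_mem _ h1 (Ideal.mem_span_singleton_self b)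
      exact hb (isUnit_of_dvd_unit (Ideal.mem_span_singleton.1 h2) hu)
    rcases hch (Ideal.span {a}) (Ideal.span {b}) with h | h
    · exact key a b hb h
    · rw [add_comm]
      exact key b a ha h
  refine ⟨hloc, ?_⟩
  obtain ⟨γ, hγ, hmax⟩ := Set.exists_max_image (IsLocalRing.maximalIdeal R : Set R)
    (fun x => (Ideal.span {x} : Ideal R).carrier.ncard) (Set.toFinite _) ⟨0, Ideal.zero_mem _⟩
  refine ⟨γ, ?_, ?_⟩
  · refine le_antisymm (fun x hx => ?_) ((Ideal.span_singleton_le_iff_mem _).2 hγ)
    rcases hch (Ideal.span {x}) (Ideal.span {γ}) with h | h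
    · exact h (Ideal.mem_span_singleton_self x)
    · have h1 := hmax x hx
      have h2 : (Ideal.span {γ} : Ideal R).carrier = (Ideal.span {x} : Ideal R).carrier :=
        Set.eq_of_subset_of_ncard_le h h1 (Set.toFinite _)
      have h3 : x ∈ (Ideal.span {x} : Ideal R).carrier := Ideal.mem_span_singleton_self x
      rw [← h2] at h3
      exact h3
  · exact Ring.KrullDimLE.isNilpotent_iff_mem_maximalIdeal.2 hγ

end Pool.Agent.CR257.Chain
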