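import Pool.Agent.CR257.Stmts

/-!
MP_d6eb29_al: task `TaskCop` of the blueprint in `Pool/Agent/CR257/Stmts.lean`.
-/

set_option autoImplicit false

namespace Pool.Agent.CR257.Cop

open Polynomial

private theorem P_pow_aux (n : ℕ) [NeZero n] (R : Type) [CommRing R] (r : ℕ) :
    (P n R) ^ r = Matrix.of fun i j => if j = i + (r : ZMod n) then 1 else 0 := by
  induction r with
  | zero =>
    ext i j
    simp [Matrix.one_apply, eq_comm]
  | succ r ih =>
    rw [pow_succ, ih]
    ext i j
    rw [Matrix.mul_apply, Finset.sum_eq_single (i + (r : ZMod n))]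
    · simp [P, add_assoc]
    · intro k _ hk
      simp [hk]
    · intro h
      exact absurd (Finset.mem_univ _) h

private theorem P_pow_n (n : ℕ) [NeZero n] (R : Type) [CommRing R] : (P n R) ^ n = 1 := by
  rw [P_pow_aux]
  ext i j
  simp [Matrix.one_apply, eq_comm]

private theorem coeff_aux (n : ℕ) [NeZero n] (R : Type) [CommRing R] (h : R[X])
    (hd : h.natDegree < n) (h0 : aeval (P n R) h = 0) : h = 0 := by
  ext r
  rw [coeff_zero]
  by_cases hr : r < n
  · have h1 : (aeval (P n R) h) 0 (r : ZMod n) = 0 := by
      rw [h0]
      rfl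
    rw [aeval_eq_sum_range' hd, Matrix.sum_apply, Finset.sum_eq_single r] at h1
    · rw [P_pow_aux] at h1
      simpa using h1
    · intro i hi hir
      rw [P_pow_aux]
      have : ¬ ((r : ZMod n) = 0 + (i : ZMod n)) := by
        rw [zero_add, ZMod.natCast_eq_natCast_iff', Nat.mod_eq_of_lt hr,
          Nat.mod_eq_of_lt (Finset.mem_range.1 hi)]
        exact fun h => hir h.symm
      rw [Matrix.smul_apply, Matrix.of_apply, if_neg this, smul_zero]
    · intro h
      exact absurd (Finset.mem_range.2 hr) h
  · exact coeff_eq_zero_of_natDegree_lt (by omega)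

theorem main : TaskCop := by
  intro n hn F _ f
  have : NeZero n := ⟨by omega⟩
  rw [dd_eq]
  constructor
  · intro hdet
    apply isCoprime_of_irreducible_dvd
    · rintro ⟨_, h⟩
      exact (X_pow_sub_C_ne_zero (n := n) hn (1 : F)) (by simpa using h)
    · rintro g hg ⟨q, hq⟩ ⟨h, hh⟩
      have hXn : (X ^ n - 1 : F[X]).natDegree = n := by
        have := natDegree_X_pow_sub_C (n := n) (r := (1 : F))
        simpa using this
      have hXne : (X ^ n - 1 : F[X]) ≠ 0 := by
        intro h'
        rw [h', natDegree_zero] at hXn
        omega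
      have hg0 : g ≠ 0 := hg.ne_zero
      have hh0 : h ≠ 0 := by
        rintro rfl
        rw [mul_zero] at hh
        exact hXne hh
      have hdeg : h.natDegree < n := by
        have h1 := natDegree_mul hg0 hh0
        rw [← hh, hXn] at h1
        have h2 : 0 < g.natDegree := hg.natDegree_pos
        omega
      have hzero : aeval (P n F) f * aeval (P n F) h = 0 := by
        have h1 : aeval (P n F) (X ^ n - 1 : F[X]) = 0 := by
          simp [P_pow_n]
        rw [← map_mul, hq, show g * q * h = q * (g * h) by ring, ← hh, map_mul, h1, mul_zero]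
      have hunit : IsUnit (aeval (P n F) f) := by
        rw [Matrix.isUnit_iff_isUnit_det]
        exact isUnit_iff_ne_zero.2 hdet
      have : aeval (P n F) h = 0 := by
        obtain ⟨u, hu⟩ := hunit
        rw [← hu] at hzero
        exact (Units.mul_right_eq_zero u).1 hzero
      exact hh0 (coeff_aux n F h hdeg this)
  · rintro ⟨a, b, hab⟩ hdet
    have h1 : aeval (P n F) a * aeval (P n F) f = 1 := by
      have := congrArg (aeval (P n F)) hab
      rw [map_add, map_mul, map_mul] at this
      have h2 : aeval (P n F) (X ^ n - 1 : F[X]) = 0 := by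
        simp [P_pow_n]
      rw [h2, mul_zero, add_zero, map_one] at this
      exact this
    have h2 := congrArg Matrix.det h1
    rw [Matrix.det_mul, hdet, mul_zero, Matrix.det_one] at h2
    exact zero_ne_one h2

end Pool.Agent.CR257.Cop
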