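import Pool.Agent.CR257.Asm

set_option autoImplicit false

namespace Pool.Agent.CR257

open Polynomial

theorem D_charP (R : Type) [CommRing R] (p k : ℕ) (hc : (p : R) = 0) (y : R) :
    y ∈ D p k R ↔ ∃ b : R, y = b ^ (p ^ k) := by
  have h1 : ∀ b : ℕ → R, ∑ j ∈ Finset.range (k + 1), (p : R) ^ j * b j ^ (p ^ (k - j)) =
      b 0 ^ (p ^ k) := by
    intro b
    rw [Finset.sum_eq_single 0]
    · simp
    · intro j _ hj
      rw [hc, zero_pow hj, zero_mul]
    · intro h
      exact absurd (Finset.mem_range.2 (Nat.succ_pos k)) h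
  constructor
  · rintro ⟨b, hb⟩
    exact ⟨b 0, by rw [hb, h1]⟩
  · rintro ⟨b, hb⟩
    exact ⟨fun _ => b, by rw [h1, hb]⟩

/-- Unramified case: all elements lie in `D`. -/
theorem D_top (R : Type) [CommRing R] [Finite R] [IsLocalRing R] (p k : ℕ) (hp : p.Prime)
    (hγ : IsLocalRing.maximalIdeal R = Ideal.span {(p : R)}) (y : R) : y ∈ D p k R := by
  haveI : Fact p.Prime := ⟨hp⟩
  haveI hF : Finite (IsLocalRing.ResidueField R) :=
    Finite.of_surjective _ (IsLocalRing.residue_surjective (R := R))
  have hp0 : ((p : ℕ) : IsLocalRing.ResidueField R) = 0 := by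
    have : (p : R) ∈ IsLocalRing.maximalIdeal R := by
      rw [hγ]; exact Ideal.mem_span_singleton_self _
    rwa [← IsLocalRing.residue_eq_zero_iff, map_natCast] at this
  haveI : CharP (IsLocalRing.ResidueField R) p := (CharP.charP_iff_prime_eq_zero hp).2 hp0
  induction k generalizing y with
  | zero => exact ⟨fun _ => y, by simp⟩
  | succ k ih =>
    have hsurj : Function.Surjective (iterateFrobenius (IsLocalRing.ResidueField R) p (k + 1)) :=
      Finite.surjective_of_injective (RingHom.injective _)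
    obtain ⟨c, hc⟩ := hsurj (IsLocalRing.residue R y)
    obtain ⟨b, rfl⟩ := IsLocalRing.residue_surjective c
    rw [iterateFrobenius_def, ← map_pow] at hc
    have h1 : y - b ^ p ^ (k + 1) ∈ IsLocalRing.maximalIdeal R := by
      rw [← IsLocalRing.residue_eq_zero_iff, map_sub, hc, sub_self]
    rw [hγ, Ideal.mem_span_singleton] at h1
    obtain ⟨y', hy'⟩ := h1
    obtain ⟨b', hb'⟩ := ih y'
    refine ⟨fun j => if j = 0 then b else b' (j - 1), ?_⟩
    rw [Finset.sum_range_succ']
    have h2 : ∀ j ∈ Finset.range (k + 1), (p : R) ^ (j + 1) *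
        (if j + 1 = 0 then b else b' (j + 1 - 1)) ^ (p ^ (k + 1 - (j + 1))) =
        p * ((p : R) ^ j * b' j ^ (p ^ (k - j))) := by
      intro j _
      rw [if_neg (Nat.succ_ne_zero j), Nat.add_sub_cancel, Nat.add_sub_add_right, pow_succ]
      ring
    rw [Finset.sum_congr rfl h2, ← Finset.mul_sum, ← hb']
    simp only [if_true, pow_zero, one_mul, Nat.sub_zero]
    linear_combination hy'

end Pool.Agent.CR257
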