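import Pool.Agent.CR257.Cor
import Pool.Agent.CR257.Card

set_option autoImplicit false

namespace Pool.Agent.CR257

open Polynomial

theorem card_pow (R : Type) [CommRing R] [Finite R] [IsLocalRing R] (γ : R) (e : ℕ)
    (hm : IsLocalRing.maximalIdeal R = Ideal.span {γ})
    (he : IsLeast {i : ℕ | 1 ≤ i ∧ γ ^ i = 0} e) (j : ℕ) (hj : j ≤ e) :
    Nat.card (Ideal.span {γ ^ (e - j)} : Ideal R) =
      Nat.card (IsLocalRing.ResidueField R) ^ j := by
  induction j with
  | zero =>
    rw [Nat.sub_zero, he.1.2, Ideal.span_singleton_zero, pow_zero]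
    exact Nat.card_unique
  | succ j ih =>
    rw [Card.step R γ e hm he (e - (j + 1)) (by omega), show e - (j + 1) + 1 = e - j by omega,
      ih (by omega), pow_succ]

theorem card_units (R : Type) [CommRing R] [Finite R] [IsLocalRing R] (γ : R) (e : ℕ)
    (hm : IsLocalRing.maximalIdeal R = Ideal.span {γ})
    (he : IsLeast {i : ℕ | 1 ≤ i ∧ γ ^ i = 0} e) :
    {z : R | IsUnit z}.ncard = (Nat.card (IsLocalRing.ResidueField R) - 1) *
      Nat.card (IsLocalRing.ResidueField R) ^ (e - 1) := by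
  have h1 := (Card.main R γ e hm he).1
  have h2 := (Card.main R γ e hm he).2
  have h3 : {z : R | IsUnit z} = (IsLocalRing.maximalIdeal R : Set R)ᶜ := by
    ext z
    simp [IsLocalRing.mem_maximalIdeal]
  have h4 : (IsLocalRing.maximalIdeal R : Set R).ncard + ((IsLocalRing.maximalIdeal R : Set R)ᶜ).ncard
      = Nat.card R := Set.ncard_add_ncard_compl _
  have h5 : (IsLocalRing.maximalIdeal R : Set R).ncard =
      Nat.card (IsLocalRing.maximalIdeal R) := (Nat.card_coe_set_eq _).symm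
  rw [h3]
  rw [h5, h1, h2] at h4
  obtain ⟨t, ht⟩ : ∃ t, e = t + 1 := ⟨e - 1, by have := he.1.1; omega⟩
  subst ht
  rw [Nat.add_sub_cancel] at h4 ⊢
  rw [Nat.sub_mul, one_mul, ← pow_succ']
  omega

theorem pow_eq_zero_iff' (R : Type) [CommRing R] [Finite R] [IsLocalRing R] (γ : R) (e : ℕ)
    (hm : IsLocalRing.maximalIdeal R = Ideal.span {γ})
    (he : IsLeast {i : ℕ | 1 ≤ i ∧ γ ^ i = 0} e) (N : ℕ) (hN : 1 ≤ N) (x : R) :
    x ^ N = 0 ↔ x ∈ Ideal.span {γ ^ ((e + N - 1) / N)} := by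
  have hdiv : ∀ x : R, ∃ v : ℕ, ∃ u : R, v ≤ e ∧ x = γ ^ v * u ∧ (v < e → IsUnit u) := by
    intro x
    by_contra hcon
    push Not at hcon
    have : ∀ v, v ≤ e → ∃ u, x = γ ^ v * u := by
      intro v
      induction v with
      | zero => intro _; exact ⟨x, by simp⟩
      | succ v ih =>
        intro hv
        obtain ⟨u, hu⟩ := ih (by omega)
        have h1 := (hcon v u (by omega) hu).2
        have h2 : u ∈ IsLocalRing.maximalIdeal R := (IsLocalRing.mem_maximalIdeal _).2 h1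
        rw [hm, Ideal.mem_span_singleton] at h2
        obtain ⟨w, hw⟩ := h2
        exact ⟨w, by rw [hu, hw, pow_succ, mul_assoc]⟩
    obtain ⟨u, hu⟩ := this e le_rfl
    exact absurd (hcon e u le_rfl hu).1 (lt_irrefl e)
  constructor
  · intro h
    obtain ⟨v, u, hv, hx, hu⟩ := hdiv x
    rw [Ideal.mem_span_singleton]
    by_cases hve : v < e
    · have h1 := hu hve
      rw [hx, mul_pow, ← pow_mul] at h
      have h2 : γ ^ (v * N) = 0 := ((h1.pow N).mul_left_eq_zero).1 h
      have h3 : e ≤ v * N := by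
        by_contra hc
        have h4 : 1 ≤ v * N ∨ v * N = 0 := by omega
        rcases h4 with h4 | h4
        · exact hc (he.2 ⟨h4, h2⟩)
        · rw [h4, pow_zero] at h2
          exact one_ne_zero h2
      have h4 : (e + N - 1) / N ≤ v := by
        rw [Nat.div_le_iff_le_mul_add_pred (by omega)]
        rw [mul_comm] at h3
        omega
      rw [hx]
      exact (pow_dvd_pow γ h4).mul_right _
    · have h5 : v = e := by omega
      rw [hx, h5, he.1.2, zero_mul]
      exact dvd_zero _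
  · intro h
    rw [Ideal.mem_span_singleton] at h
    obtain ⟨w, rfl⟩ := h
    rw [mul_pow, ← pow_mul]
    have h1 : e ≤ (e + N - 1) / N * N := by
      have h2 := Nat.div_add_mod (e + N - 1) N
      have h3 := Nat.mod_lt (e + N - 1) (show 0 < N by omega)
      rw [mul_comm] at h2
      omega
    obtain ⟨t, ht⟩ := Nat.exists_eq_add_of_le h1
    rw [ht, pow_add, he.1.2, zero_mul, zero_mul]

theorem units_charp (R : Type) [CommRing R] [Finite R] [IsLocalRing R] (γ : R) (e p k : ℕ)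
    (hm : IsLocalRing.maximalIdeal R = Ideal.span {γ})
    (he : IsLeast {i : ℕ | 1 ≤ i ∧ γ ^ i = 0} e) (hp : p.Prime) (hc : (p : R) = 0) :
    {z : R | z ∈ D p k R ∧ IsUnit z}.ncard = (Nat.card (IsLocalRing.ResidueField R) - 1) *
      Nat.card (IsLocalRing.ResidueField R) ^ ((e + p ^ k - 1) / p ^ k - 1) := by
  haveI : CharP R p := (CharP.charP_iff_prime_eq_zero hp).2 hc
  haveI : Fact p.Prime := ⟨hp⟩
  have hN : 1 ≤ p ^ k := Nat.one_le_pow _ _ hp.pos
  obtain ⟨c, hcc⟩ : ∃ c, (e + p ^ k - 1) / p ^ k = c := ⟨_, rfl⟩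
  have he1 : 1 ≤ e := he.1.1
  have hce : c ≤ e := by
    rw [← hcc, Nat.div_le_iff_le_mul_add_pred (by omega)]
    have : e ≤ p ^ k * e := Nat.le_mul_of_pos_left e (by omega)
    omega
  have hc1 : 1 ≤ c := by
    rw [← hcc, Nat.one_le_div_iff (by omega)]
    omega
  -- the map
  let φ : Rˣ →* Rˣ := powMonoidHom (p ^ k)
  have h1 : Nat.card φ.range * Nat.card φ.ker = Nat.card Rˣ := by
    rw [← Subgroup.card_mul_index φ.ker, Subgroup.index_ker, mul_comm]
  have h2 : Nat.card Rˣ = {z : R | IsUnit z}.ncard := by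
    rw [← Nat.card_coe_set_eq]
    exact Nat.card_congr ⟨fun u => ⟨u, u.isUnit⟩, fun z => z.2.unit, fun u => by ext; rfl,
      fun z => by ext; rfl⟩
  have hker : ∀ u : Rˣ, u ∈ φ.ker ↔ ((u : R) - 1) ∈ Ideal.span {γ ^ c} := by
    intro u
    rw [← hcc, ← pow_eq_zero_iff' R γ e hm he (p ^ k) hN, sub_pow_char_pow, one_pow, sub_eq_zero,
      MonoidHom.mem_ker]
    show u ^ (p ^ k) = 1 ↔ _
    rw [← Units.val_inj, Units.val_pow_eq_pow_val, Units.val_one]
  have h3 : Nat.card φ.ker = Nat.card (IsLocalRing.ResidueField R) ^ (e - c) := by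
    rw [← card_pow R γ e hm he (e - c) (Nat.sub_le _ _), show e - (e - c) = c by omega]
    refine Nat.card_eq_of_bijective (fun u : φ.ker => (⟨((u : Rˣ) : R) - 1, (hker u.1).1 u.2⟩ :
      (Ideal.span {γ ^ c} : Ideal R))) ⟨?_, ?_⟩
    · intro u v h
      have h' : ((u : Rˣ) : R) - 1 = ((v : Rˣ) : R) - 1 := congrArg Subtype.val h
      exact Subtype.ext (Units.ext (sub_left_injective h'))
    · rintro ⟨x, hx⟩
      have hxn : IsNilpotent x := ⟨p ^ k, (pow_eq_zero_iff' R γ e hm he (p ^ k) hN x).2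
        (by rw [hcc]; exact hx)⟩
      obtain ⟨u, hu⟩ := hxn.isUnit_one_add
      refine ⟨⟨u, (hker u).2 (by rw [hu]; simpa using hx)⟩, ?_⟩
      apply Subtype.ext
      show (u : R) - 1 = x
      rw [hu]; ring
  have h4 : Nat.card φ.range = {z : R | z ∈ D p k R ∧ IsUnit z}.ncard := by
    rw [← Nat.card_coe_set_eq]
    refine Nat.card_eq_of_bijective (fun u : φ.range => (⟨((u : Rˣ) : R), ?_, u.1.isUnit⟩ :
      {z : R | z ∈ D p k R ∧ IsUnit z})) ⟨?_, ?_⟩
    · obtain ⟨v, hv⟩ := u.2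
      refine (D_charP R p k hc _).2 ⟨(v : R), ?_⟩
      rw [← hv]
      rfl
    · intro u v h
      have h' : ((u : Rˣ) : R) = ((v : Rˣ) : R) := congrArg Subtype.val h
      exact Subtype.ext (Units.ext h')
    · rintro ⟨z, hz, hu⟩
      obtain ⟨b, hb⟩ := (D_charP R p k hc z).1 hz
      have hbu : IsUnit b := by
        rw [hb] at hu
        exact (isUnit_pow_iff (by omega)).1 hu
      obtain ⟨v, rfl⟩ := hbu
      refine ⟨⟨φ v, v, rfl⟩, ?_⟩
      apply Subtype.ext
      show ((φ v : Rˣ) : R) = z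
      rw [hb]
      rfl
  rw [h2, card_units R γ e hm he, h3, h4] at h1
  rw [hcc]
  have hq : 0 < Nat.card (IsLocalRing.ResidueField R) := by
    haveI : Finite (IsLocalRing.ResidueField R) :=
      Finite.of_surjective _ (IsLocalRing.residue_surjective (R := R))
    exact Nat.card_pos
  have h5 : e - 1 = (c - 1) + (e - c) := by omega
  rw [h5, pow_add, ← mul_assoc] at h1
  exact Nat.eq_of_mul_eq_mul_right (Nat.pow_pos hq) h1

end Pool.Agent.CR257
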