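import Pool.Agent.CR257.Stmts

set_option autoImplicit false

namespace Pool.Agent.CR257.Cyc

open Pool.Agent.CR257 Polynomial UniqueFactorizationMonoid

variable {F : Type} [Field F]

/-- the number of units of `F[X]/(g)` -/
noncomputable def N (g : F[X]) : ℕ := Nat.card (F[X] ⧸ Ideal.span {g})ˣ

theorem N_assoc {g h : F[X]} (ha : Associated g h) : N g = N h := by
  unfold N
  rw [Ideal.span_singleton_eq_span_singleton.2 ha]

theorem N_one : N (1 : F[X]) = 1 := by
  unfold N
  haveI : Subsingleton (F[X] ⧸ Ideal.span {(1 : F[X])}) :=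
    Ideal.Quotient.subsingleton_iff.2 (by simp)
  exact Nat.card_of_subsingleton (1 : (F[X] ⧸ Ideal.span {(1 : F[X])})ˣ)

theorem N_mul {g h : F[X]} (hc : IsCoprime g h) : N (g * h) = N g * N h := by
  unfold N
  have h1 : IsCoprime (Ideal.span {g}) (Ideal.span {h}) :=
    (Ideal.isCoprime_span_singleton_iff g h).2 hc
  have e1 : (F[X] ⧸ Ideal.span {g * h}) ≃+* (F[X] ⧸ Ideal.span {g}) × (F[X] ⧸ Ideal.span {h}) :=
    (Ideal.quotEquivOfEq (Ideal.span_singleton_mul_span_singleton g h).symm).trans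
      (Ideal.quotientMulEquivQuotientProd _ _ h1)
  rw [Nat.card_congr ((Units.mapEquiv e1.toMulEquiv).trans MulEquiv.prodUnits).toEquiv,
    Nat.card_prod]

theorem N_prod {ι : Type} [DecidableEq ι] (s : Finset ι) (g : ι → F[X]) 
    (hc : ∀ i ∈ s, ∀ j ∈ s, i ≠ j → IsCoprime (g i) (g j)) :
    N (∏ i ∈ s, g i) = ∏ i ∈ s, N (g i) := by
  induction s using Finset.induction_on with
  | empty => simpa using N_one
  | insert a s ha ih =>
    rw [Finset.prod_insert ha, Finset.prod_insert ha, N_mul, ih]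
    · intro i hi j hj hij
      exact hc i (Finset.mem_insert_of_mem hi) j (Finset.mem_insert_of_mem hj) hij
    · refine IsCoprime.prod_right fun j hj => ?_
      exact hc a (Finset.mem_insert_self _ _) j (Finset.mem_insert_of_mem hj)
        (fun h => ha (h ▸ hj))

theorem coprime_of_sep {ι : Type} [DecidableEq ι] (s : Finset ι) (g : ι → F[X])
    (hs : (∏ i ∈ s, g i).Separable) :
    ∀ i ∈ s, ∀ j ∈ s, i ≠ j → IsCoprime (g i) (g j) := by
  intro i hi j hj hij
  rw [← Finset.mul_prod_erase s g hi] at hs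
  exact hs.isCoprime.of_isCoprime_of_dvd_right
    (Finset.dvd_prod_of_mem g (Finset.mem_erase.2 ⟨hij.symm, hj⟩))

theorem N_irr [Finite F] {g : F[X]} (hg : Irreducible g) : N g = Nat.card F ^ g.natDegree - 1 := by
  unfold N
  haveI : (Ideal.span {g}).IsMaximal := PrincipalIdealRing.isMaximal_of_irreducible hg
  letI : Field (F[X] ⧸ Ideal.span {g}) := Ideal.Quotient.field _
  have h1 : Module.finrank F (F[X] ⧸ Ideal.span {g}) = g.natDegree :=
    finrank_quotient_span_eq_natDegree
  have h2 : 0 < g.natDegree := hg.natDegree_pos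
  haveI : Module.Finite F (F[X] ⧸ Ideal.span {g}) :=
    Module.finite_of_finrank_pos (by rw [h1]; exact h2)
  rw [← h1, ← Module.natCard_eq_pow_finrank (K := F)]
  exact Nat.card_units _

theorem isUnit_mk (g f : F[X]) :
    IsUnit (Ideal.Quotient.mk (Ideal.span {g}) f) ↔ IsCoprime f g := by
  constructor
  · intro h
    obtain ⟨y, hy⟩ := h.exists_right_inv
    obtain ⟨k, rfl⟩ := Ideal.Quotient.mk_surjective y
    rw [← map_mul, ← map_one (Ideal.Quotient.mk (Ideal.span {g})), Ideal.Quotient.mk_eq_mk_iff_sub_mem,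
      Ideal.mem_span_singleton] at hy
    obtain ⟨c, hc⟩ := hy
    exact ⟨k, -c, by linear_combination hc⟩
  · rintro ⟨a, b, hab⟩
    refine IsUnit.of_mul_eq_one (Ideal.Quotient.mk _ a) ?_
    rw [← map_mul, ← map_one (Ideal.Quotient.mk (Ideal.span {g})), Ideal.Quotient.mk_eq_mk_iff_sub_mem,
      Ideal.mem_span_singleton]
    exact ⟨-b, by linear_combination hab⟩

theorem uu_eq (hB : TaskBridge) (hC : TaskCop) (m : ℕ) [NeZero m] [Finite F] :
    uu m F = N (X ^ m - 1 : F[X]) := by
  obtain ⟨hP, hB2, hB3⟩ := hB m F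
  have hm : 1 ≤ m := NeZero.one_le
  let I : Ideal F[X] := Ideal.span {X ^ m - 1}
  let Φ : (F[X] ⧸ I) →+* Matrix (ZMod m) (ZMod m) F :=
    Ideal.Quotient.lift I (aeval (P m F)).toRingHom (fun a ha => by
      obtain ⟨c, rfl⟩ := Ideal.mem_span_singleton.1 ha
      change aeval (P m F) ((X ^ m - 1) * c) = 0
      rw [map_mul, map_sub, map_pow, aeval_X, map_one, hP, sub_self, zero_mul])
  have hΦ : ∀ f : F[X], Φ (Ideal.Quotient.mk I f) = aeval (P m F) f := fun f => rfl
  let Ψ : (F[X] ⧸ I) → (ZMod m → F) := fun x j => Φ x 0 j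
  have hΨ : ∀ x, Φ x = cir (Ψ x) := by
    intro x
    obtain ⟨f, rfl⟩ := Ideal.Quotient.mk_surjective x
    obtain ⟨a, ha⟩ := hB3 f
    have h1 : Ψ (Ideal.Quotient.mk I f) = a := by
      funext j
      change Φ (Ideal.Quotient.mk I f) 0 j = a j
      rw [hΦ, ha]
      simp [cir]
    rw [h1, hΦ, ha]
  have hcard : Nat.card (F[X] ⧸ I) = Nat.card (ZMod m → F) := by
    have h1 : Module.finrank F (F[X] ⧸ I) = m := by
      have h2 : Module.finrank F (F[X] ⧸ Ideal.span {(X ^ m - 1 : F[X])}) =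
          (X ^ m - 1 : F[X]).natDegree := finrank_quotient_span_eq_natDegree
      have h3 : (X ^ m - 1 : F[X]).natDegree = m := by
        simpa using natDegree_X_pow_sub_C (n := m) (r := (1 : F))
      rw [h3] at h2
      exact h2
    haveI : Module.Finite F (F[X] ⧸ I) := Module.finite_of_finrank_pos (by omega)
    rw [Module.natCard_eq_pow_finrank (K := F), h1, Nat.card_fun, Nat.card_zmod]
  haveI : Finite (F[X] ⧸ I) := by
    haveI : Finite (ZMod m → F) := inferInstance
    exact Nat.finite_of_card_ne_zero (by rw [hcard]; exact Nat.card_pos.ne')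
  have hbij : Function.Bijective Ψ := by
    refine (Nat.bijective_iff_surjective_and_card Ψ).2 ⟨fun a => ?_, hcard⟩
    obtain ⟨f, hf⟩ := hB2 a
    refine ⟨Ideal.Quotient.mk I f, ?_⟩
    funext j
    change Φ (Ideal.Quotient.mk I f) 0 j = a j
    rw [hΦ, hf]
    simp [cir]
  have hiff : ∀ x, IsUnit (cir (Ψ x)).det ↔ IsUnit x := by
    intro x
    obtain ⟨f, rfl⟩ := Ideal.Quotient.mk_surjective x
    rw [isUnit_mk, ← hC m hm F f, dd_eq, isUnit_iff_ne_zero, ← hΨ, hΦ]
  have hset : {a : ZMod m → F | IsUnit (cir a).det} =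
      (Ψ ∘ (Units.val : (F[X] ⧸ I)ˣ → (F[X] ⧸ I))) '' Set.univ := by
    ext a
    constructor
    · intro ha
      obtain ⟨x, rfl⟩ := hbij.2 a
      obtain ⟨u, hu⟩ := (hiff x).1 ha
      exact ⟨u, Set.mem_univ _, by rw [← hu]; rfl⟩
    · rintro ⟨u, -, rfl⟩
      exact (hiff u.val).2 u.isUnit
  unfold uu N
  rw [hset, Set.ncard_image_of_injective _ (hbij.1.comp Units.val_injective), Set.ncard_univ]

theorem main (hB : TaskBridge) (hC : TaskCop) : TaskCyc := by
  intro m _ F _ _ hco
  classical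
  rw [uu_eq hB hC]
  haveI : Fintype F := Fintype.ofFinite F
  obtain ⟨p, hchar⟩ := CharP.exists F
  obtain ⟨e, hp, hcard⟩ := FiniteField.card F p
  haveI : Fact p.Prime := ⟨hp⟩
  have hq : Nat.card F = p ^ (e : ℕ) := by rw [Nat.card_eq_fintype_card, hcard]
  have hm : 0 < m := NeZero.pos m
  have hpm : p.Coprime m := by
    rw [hq] at hco
    exact (Nat.Coprime.coprime_dvd_right (dvd_pow_self p e.ne_zero) hco).symm
  have hm0 : (m : F) ≠ 0 := by
    intro h
    rw [CharP.cast_eq_zero_iff F p] at h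
    exact hp.one_lt.ne' (Nat.Coprime.eq_one_of_dvd hpm h)
  have hsep : (X ^ m - 1 : F[X]).Separable := X_pow_sub_one_separable_iff.2 hm0
  rw [← prod_cyclotomic_eq_X_pow_sub_one hm F] at hsep ⊢
  rw [N_prod _ _ (coprime_of_sep _ _ hsep)]
  refine Finset.prod_congr rfl fun d hd => ?_
  have hdm : d ∣ m := Nat.dvd_of_mem_divisors hd
  have hpd : p.Coprime d := Nat.Coprime.coprime_dvd_right hdm hpm
  have hsepd : (cyclotomic d F).Separable := hsep.of_dvd (Finset.dvd_prod_of_mem _ hd)
  have hne : cyclotomic d F ≠ 0 := cyclotomic_ne_zero d F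
  have hnod : (normalizedFactors (cyclotomic d F)).Nodup :=
    (squarefree_iff_nodup_normalizedFactors hne).1 hsepd.squarefree
  have hprod : Associated (∏ g ∈ (normalizedFactors (cyclotomic d F)).toFinset, g)
      (cyclotomic d F) := by
    have h1 := prod_normalizedFactors hne
    have h2 : ∏ g ∈ (normalizedFactors (cyclotomic d F)).toFinset, g =
        (normalizedFactors (cyclotomic d F)).prod := by
      have h3 := Finset.prod_val (normalizedFactors (cyclotomic d F)).toFinset
      rw [Multiset.toFinset_val, Multiset.dedup_eq_self.2 hnod] at h3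
      exact h3.symm
    rw [h2]
    exact h1
  have hsep2 : (∏ g ∈ (normalizedFactors (cyclotomic d F)).toFinset, g).Separable :=
    hsepd.of_dvd hprod.dvd
  rw [← N_assoc hprod, N_prod _ (fun g => g) (coprime_of_sep _ (fun g => g) hsep2)]
  have hord : orderOf (ZMod.unitOfCoprime _ (hpd.pow_left (e : ℕ))) =
      orderOf (Nat.card F : ZMod d) := by
    rw [← orderOf_units, ZMod.coe_unitOfCoprime, hq]
  have hc := normalizedFactors_cyclotomic_card hcard hpd
  rw [hord] at hc
  rw [← hc, ← Finset.prod_const]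
  refine Finset.prod_congr rfl fun g hg => ?_
  have hg' := Multiset.mem_toFinset.1 hg
  rw [N_irr (irreducible_of_normalized_factor g hg'),
    natDegree_of_mem_normalizedFactors_cyclotomic hcard hpd hg', hord]

end Pool.Agent.CR257.Cyc
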