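import Pool.Agent.CR257.Stmts

set_option autoImplicit false

namespace Pool.Agent.CR257.Dwork

/-- the coefficients, chosen one after the other -/
noncomputable def co {A : Type} [CommRing A] (p : ℕ) (x : ℕ → A) (n : ℕ) : A :=
  open Classical in
  if h : ∃ a : A, (p : A) ^ n * a = x n - ∑ j : Fin n, (p : A) ^ (j : ℕ) *
    (co p x j) ^ (p ^ (n - (j : ℕ))) then h.choose else 0
termination_by n
decreasing_by exact j.2

theorem co_spec {A : Type} [CommRing A] (p : ℕ) (x : ℕ → A) (n : ℕ)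
    (h : ∃ a : A, (p : A) ^ n * a = x n - ∑ j ∈ Finset.range n, (p : A) ^ j *
      (co p x j) ^ (p ^ (n - j))) :
    ∑ j ∈ Finset.range (n + 1), (p : A) ^ j * (co p x j) ^ (p ^ (n - j)) = x n := by
  have h' : ∃ a : A, (p : A) ^ n * a = x n - ∑ j : Fin n, (p : A) ^ (j : ℕ) *
      (co p x j) ^ (p ^ (n - (j : ℕ))) := by
    rw [Fin.sum_univ_eq_sum_range (fun j => (p : A) ^ j * (co p x j) ^ (p ^ (n - j))) n]
    exact h
  have e : (p : A) ^ n * co p x n = x n - ∑ j : Fin n, (p : A) ^ (j : ℕ) *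
      (co p x j) ^ (p ^ (n - (j : ℕ))) := by
    conv_lhs => rw [co]
    rw [dif_pos h']
    exact h'.choose_spec
  rw [Fin.sum_univ_eq_sum_range (fun j => (p : A) ^ j * (co p x j) ^ (p ^ (n - j))) n] at e
  rw [Finset.sum_range_succ, Nat.sub_self, pow_zero, pow_one, e]
  ring

theorem main (hW : TaskWitt) : TaskDwork := by
  intro p hp A _ φ _ hφ x hx
  have hcong : ∀ (a : A) (r : ℕ), ∃ c, (φ a) ^ (p ^ r) = a ^ (p ^ (r + 1)) + (p : A) ^ (r + 1) * c := by
    intro a r
    obtain ⟨c, hc⟩ := hφ a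
    have h1 : (p : A) ∣ φ a - a ^ p := ⟨c, by rw [hc]; ring⟩
    have h2 := dvd_sub_pow_of_dvd_sub h1 r
    obtain ⟨d, hd⟩ := h2
    refine ⟨d, ?_⟩
    rw [← hd, ← pow_mul, ← pow_succ']
    ring
  have key : ∀ n, ∑ j ∈ Finset.range (n + 1), (p : A) ^ j * (co p x j) ^ (p ^ (n - j)) = x n := by
    intro n
    induction n with
    | zero =>
      refine co_spec p x 0 ⟨x 0, by simp⟩
    | succ n ih =>
      refine co_spec p x (n + 1) ?_
      obtain ⟨E, hE⟩ := hx n
      choose c hc using fun (j : ℕ) => hcong (co p x j) (n - j)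
      refine ⟨E + ∑ j ∈ Finset.range (n + 1), c j, ?_⟩
      rw [hE, ← ih, map_sum, mul_add, Finset.mul_sum]
      have e1 : ∑ j ∈ Finset.range (n + 1), φ ((p : A) ^ j * (co p x j) ^ (p ^ (n - j))) =
          ∑ j ∈ Finset.range (n + 1), ((p : A) ^ j * (co p x j) ^ (p ^ (n + 1 - j)) +
            (p : A) ^ (n + 1) * c j) := by
        refine Finset.sum_congr rfl fun j hj => ?_
        have hj' : j ≤ n := Nat.lt_succ_iff.1 (Finset.mem_range.1 hj)
        rw [map_mul, map_pow, map_natCast, map_pow, hc j, mul_add]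
        have e2 : n - j + 1 = n + 1 - j := by omega
        have e3 : (p : A) ^ (n + 1) = (p : A) ^ j * (p : A) ^ (n + 1 - j) := by
          rw [← pow_add]
          congr 1
          omega
        rw [e2, e3]
        ring
      rw [e1, Finset.sum_add_distrib]
      ring
  refine ⟨WittVector.mk p (co p x), fun i => ?_⟩
  rw [(hW p i A).2]
  simpa [WittVector.coeff_mk] using key i

end Pool.Agent.CR257.Dwork
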