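import Pool.Agent.CR257.Stmts

/-! MP_d6eb29_al blueprint: TaskFC. -/

set_option autoImplicit false

namespace Pool.Agent.CR257.FC

open Polynomial Pool.Agent.CR257

theorem main (hNorm : TaskNorm) (hPL : TaskPL) (hMul : TaskMul) : TaskFC := by
  intro p i m hp hm A _ φ hφ f
  have hn : 1 ≤ p ^ i * m := Nat.mul_pos (pow_pos hp.pos i) hm
  obtain ⟨g, hg⟩ := hNorm p (p ^ i * m) hp hn A f
  choose c hc using hφ
  set h : A[X] := ∑ j ∈ Finset.range (f.natDegree + 1), C (c (f.coeff j)) * X ^ j with hh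
  have e : f.map φ = ∑ j ∈ Finset.range (f.natDegree + 1), C (f.coeff j ^ p) * X ^ j
      + C (p : A) * h := by
    conv_lhs => rw [f.as_sum_range_C_mul_X_pow]
    rw [Polynomial.map_sum, hh, Finset.mul_sum, ← Finset.sum_add_distrib]
    apply Finset.sum_congr rfl
    intro j _
    rw [Polynomial.map_mul, map_C, Polynomial.map_pow, map_X, hc, C_add, C_mul]
    ring
  obtain ⟨E, hE⟩ := hPL p i m hp hm A (f.map φ) (g - h)
  refine ⟨E, ?_⟩
  have e2 : p ^ (i + 1) * m = p * (p ^ i * m) := by ring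
  rw [e2, hg, ← (hMul _ hn A A φ).2.2.1 f, ← hE]
  congr 1
  rw [e]
  ring

end Pool.Agent.CR257.FC
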