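import Pool.Agent.CR257.Stmts

set_option autoImplicit false

namespace Pool.Agent.CR257.Filt

open Polynomial

theorem map_FF {A B : Type} [CommRing A] [CommRing B] (φ : A →+* B) (p j : ℕ) (b : A) :
    (FF p j b).map φ = FF p j (φ b) := by
  simp only [FF, vv, Polynomial.map_add, Polynomial.map_one, Polynomial.map_mul,
    Polynomial.map_sub, Polynomial.map_C, map_natCast, Polynomial.map_sum, Polynomial.map_pow,
    Polynomial.map_X, Polynomial.map_natCast]

theorem step (hPsi : TaskPsi) (hVmul : TaskVmul) (hSurj : TaskSurj) (hUnitH : TaskUnitH)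
    (hMul : TaskMul) (hWitt : TaskWitt)
    (p k : ℕ) [Fact p.Prime] (R : Type) [CommRing R] [Finite R] (hn : IsNilpotent (p : R))
    (t : ℕ) : ∀ j, 1 ≤ j → k + 1 - j ≤ t → ∀ a : WittVector p R, One p j a →
      WittVector.ghostComponent k a ∈ H (p ^ k) R := by
  have hp : p.Prime := Fact.out
  have hpk : 1 ≤ p ^ k := Nat.one_le_pow _ _ hp.pos
  have ghost_one : ∀ j, k < j → ∀ a : WittVector p R, One p j a →
      WittVector.ghostComponent k a = 1 := by
    intro j hj a ha
    rw [(hWitt p k R).2 a, Finset.sum_eq_single 0]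
    · rw [ha.1]; simp
    · intro i hi hi0
      rw [Finset.mem_range] at hi
      rw [ha.2 i (by omega) (by omega), zero_pow (Nat.pow_pos hp.pos).ne', mul_zero]
    · intro h
      exact absurd (Finset.mem_range.2 (Nat.succ_pos k)) h
  induction t with
  | zero =>
    intro j hj hjk a ha
    rw [ghost_one j (by omega) a ha]
    exact (hUnitH (p ^ k) hpk R).1
  | succ t ih =>
    intro j hj hjk a ha
    by_cases hkj : k < j
    · rw [ghost_one j hkj a ha]
      exact (hUnitH (p ^ k) hpk R).1
    obtain ⟨w, h, hw1, hw2, hw3⟩ := hPsi p j hj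
    -- the wanted coefficient
    have hu : IsUnit (1 + (p : R) ^ j * a.coeff j) := by
      have h1 : IsNilpotent ((p : R) ^ j * a.coeff j) :=
        Commute.isNilpotent_mul_right (Commute.all _ _) (hn.pow_of_pos (by omega))
      rw [add_comm]
      exact h1.isUnit_add_one
    obtain ⟨v, hv⟩ := hu
    obtain ⟨b, hb⟩ := hSurj p R h (-(a.coeff j) * (↑v⁻¹ : R)) hn
    let φ : ℤ[X] →+* R := (aeval b : ℤ[X] →ₐ[ℤ] R).toRingHom
    have hφ : ∀ f : ℤ[X], φ f = aeval b f := fun f => rfl
    let z : WittVector p R := WittVector.map φ w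
    have hz : One p j z := by
      refine ⟨?_, fun i hi1 hi2 => ?_⟩
      · show (WittVector.map φ w).coeff 0 = 1
        rw [WittVector.map_coeff, hw2.1, map_one]
      · show (WittVector.map φ w).coeff i = 0
        rw [WittVector.map_coeff, hw2.2 i hi1 hi2, map_zero]
    have hzj : z.coeff j = -(a.coeff j) * (↑v⁻¹ : R) := by
      show (WittVector.map φ w).coeff j = _
      rw [WittVector.map_coeff, hw3, hφ, map_add, map_mul, aeval_X, aeval_C, ← hb]
      simp
    have hgz : WittVector.ghostComponent k z = dd (FF p j b) (p ^ k) := by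
      have e1 : WittVector.ghostComponent k z = φ (WittVector.ghostComponent k w) := by
        rw [(hWitt p k R).2 z, (hWitt p k ℤ[X]).2 w, map_sum]
        refine Finset.sum_congr rfl fun i _ => ?_
        rw [map_mul, map_pow, map_pow, map_natCast]
        rfl
      rw [e1, hw1, ← ((hMul (p ^ k) hpk ℤ[X] R φ).2.2.1), map_FF]
      congr 2
      rw [hφ, aeval_X]
    have hgH : WittVector.ghostComponent k z ∈ H (p ^ k) R := by
      rw [hgz]; exact ⟨_, rfl⟩
    have hgu : IsUnit (WittVector.ghostComponent k z) := by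
      rw [(hWitt p k R).2 z, Finset.sum_range_succ']
      rw [hz.1]
      simp only [pow_zero, one_pow, mul_one]
      refine IsNilpotent.isUnit_add_one ?_
      refine isNilpotent_sum fun i _ => ?_
      exact Commute.isNilpotent_mul_right (Commute.all _ _) (hn.pow_of_pos (by omega))
    have h1 := hVmul p j hj R z a hz ha
    have h2 : One p (j + 1) (z * a) := by
      refine ⟨h1.1.1, fun i hi1 hi2 => ?_⟩
      rcases Nat.lt_succ_iff_lt_or_eq.1 hi2 with h3 | h3
      · exact h1.1.2 i hi1 h3
      · subst h3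
        rw [h1.2, hzj]
        have h4 : (↑v : R) * (↑v⁻¹ : R) = 1 := v.mul_inv
        rw [hv] at h4
        linear_combination (-(a.coeff i)) * h4
    have h3 := ih (j + 1) (by omega) (by omega) (z * a) h2
    rw [map_mul] at h3
    exact (hUnitH (p ^ k) hpk R).2.2 _ _ hgu hgH h3

theorem main (hPsi : TaskPsi) (hVmul : TaskVmul) (hSurj : TaskSurj) (hUnitH : TaskUnitH)
    (hMul : TaskMul) (hWitt : TaskWitt) : TaskFilt := by
  intro p k _ R _ _ hn a ha
  exact step hPsi hVmul hSurj hUnitH hMul hWitt p k R hn (k + 1) 1 le_rfl (by omega) a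
    ⟨ha, fun i h1 h2 => by omega⟩

end Pool.Agent.CR257.Filt
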