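import Pool.Agent.CR257.Stmts

set_option autoImplicit false

namespace Pool.Agent.CR257.Fold

open Polynomial Pool.Agent.CR257

lemma P_pow (n : ℕ) [NeZero n] (R : Type) [CommRing R] (r : ℕ) (i j : ZMod n) :
    ((P n R) ^ r) i j = if j = i + (r : ZMod n) then 1 else 0 := by
  induction r generalizing j with
  | zero => simp [Matrix.one_apply, eq_comm]
  | succ r ih =>
    rw [pow_succ, Matrix.mul_apply]
    simp only [ih]
    rw [Finset.sum_eq_single (i + (r : ZMod n))]
    · simp [P, add_assoc]
    · intro b _ hb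
      simp [hb]
    · simp

/-- the coefficients modulo `X^n - 1` -/
noncomputable def co (n : ℕ) {R : Type} [CommRing R] (f : R[X]) : ZMod n → R :=
  fun x => ∑ r ∈ f.support, if x = (r : ZMod n) then f.coeff r else 0

lemma aeval_P (n : ℕ) [NeZero n] (R : Type) [CommRing R] (f : R[X]) :
    aeval (P n R) f = cir (co n f) := by
  ext i j
  rw [aeval_def, eval₂_eq_sum, Polynomial.sum, Matrix.sum_apply]
  simp only [cir, co, Matrix.of_apply]
  refine Finset.sum_congr rfl fun r _ => ?_
  rw [Algebra.algebraMap_eq_smul_one, Matrix.smul_mul, one_mul, Matrix.smul_apply, P_pow]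
  by_cases h : j = i + (r : ZMod n)
  · simp [h]
  · rw [if_neg h, if_neg (fun h' => h (sub_eq_iff_eq_add'.1 h'))]
    simp

lemma co_surj (n : ℕ) [NeZero n] (R : Type) [CommRing R] (a : ZMod n → R) :
    ∃ f : R[X], co n f = a := by
  classical
  refine ⟨∑ x : ZMod n, C (a x) * X ^ x.val, ?_⟩
  have h : aeval (P n R) (∑ x : ZMod n, C (a x) * X ^ x.val) = cir a := by
    ext i j
    rw [map_sum, Matrix.sum_apply, Finset.sum_eq_single (j - i)]
    · rw [map_mul, aeval_C, map_pow, aeval_X, Algebra.algebraMap_eq_smul_one, Matrix.smul_mul,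
        one_mul, Matrix.smul_apply, P_pow]
      simp [cir]
    · intro x _ hx
      rw [map_mul, aeval_C, map_pow, aeval_X, Algebra.algebraMap_eq_smul_one, Matrix.smul_mul,
        one_mul, Matrix.smul_apply, P_pow, if_neg, smul_zero]
      intro h
      apply hx
      rw [h]
      simp
    · simp
  rw [aeval_P] at h
  funext x
  have := congrFun (congrFun h 0) x
  simpa [cir] using this

/-- folding -/
def fold (n m : ℕ) [NeZero n] (hmn : m ∣ n) (R : Type) [CommRing R] :
    (ZMod n → R) →+ (ZMod m → R) where
  toFun a := fun g => ∑ h : ZMod n, if ZMod.castHom hmn (ZMod m) h = g then a h else 0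
  map_zero' := by
    funext g
    exact Finset.sum_eq_zero fun h _ => by split_ifs <;> rfl
  map_add' a b := by
    funext g
    simp only [Pi.add_apply]
    rw [← Finset.sum_add_distrib]
    refine Finset.sum_congr rfl fun h _ => ?_
    split_ifs <;> simp

lemma fold_co (n m : ℕ) [NeZero n] (hmn : m ∣ n) (R : Type) [CommRing R] (f : R[X]) :
    fold n m hmn R (co n f) = co m f := by
  funext g
  show (∑ h : ZMod n, if ZMod.castHom hmn (ZMod m) h = g then co n f h else 0) = co m f g
  unfold co
  have : ∀ h : ZMod n, (if ZMod.castHom hmn (ZMod m) h = g then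
      ∑ r ∈ f.support, (if h = (r : ZMod n) then f.coeff r else 0) else 0) =
      ∑ r ∈ f.support, (if h = (r : ZMod n) then
        (if ZMod.castHom hmn (ZMod m) h = g then f.coeff r else 0) else 0) := by
    intro h
    split_ifs with h1
    · rfl
    · simp
  simp only [this]
  rw [Finset.sum_comm]
  refine Finset.sum_congr rfl fun r _ => ?_
  rw [Finset.sum_ite_eq' Finset.univ (r : ZMod n)]
  simp only [Finset.mem_univ, if_true, map_natCast]
  by_cases h : (r : ZMod m) = g
  · rw [if_pos h, if_pos h.symm]
  · rw [if_neg h, if_neg (fun h' => h h'.symm)]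

lemma unit_iff (hC : TaskCop) (p k m : ℕ) [NeZero m] [NeZero (p ^ k * m)] (F : Type) [Field F]
    [CharP F p] (hp : p.Prime) (a : ZMod (p ^ k * m) → F) :
    IsUnit (cir a).det ↔ IsUnit (cir (fold (p ^ k * m) m (Dvd.intro_left _ rfl) F a)).det := by
  obtain ⟨f, rfl⟩ := co_surj (p ^ k * m) F a
  rw [fold_co, ← aeval_P, ← aeval_P, ← dd_eq, ← dd_eq, isUnit_iff_ne_zero, isUnit_iff_ne_zero,
    hC _ (NeZero.one_le), hC _ (NeZero.one_le)]
  haveI : Fact p.Prime := ⟨hp⟩
  haveI : ExpChar F p := ExpChar.prime hp
  have : (X ^ (p ^ k * m) - 1 : F[X]) = (X ^ m - 1) ^ (p ^ k) := by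
    rw [sub_pow_expChar_pow, one_pow, ← pow_mul, mul_comm]
  rw [this, IsCoprime.pow_right_iff (pow_pos hp.pos k)]

theorem main (hC : TaskCop) : TaskFold := by
  intro p k m _ _ F _ _ _ hp
  classical
  haveI := Fintype.ofFinite F
  set n := p ^ k * m with hn
  have hmn : m ∣ n := Dvd.intro_left _ rfl
  set L := fold n m hmn F with hL
  have hsurj : Function.Surjective L := by
    intro b
    obtain ⟨f, rfl⟩ := co_surj m F b
    exact ⟨co n f, fold_co n m hmn F f⟩
  have hfib : ∀ b : ZMod m → F, (Finset.univ.filter fun a => L a = b).card =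
      (Finset.univ.filter fun a => L a = 0).card := fun b =>
    AddMonoidHom.card_fiber_eq_of_mem_range L (hsurj b) (hsurj 0)
  set c := (Finset.univ.filter fun a => L a = 0).card with hc
  have hcount : ∀ B : Finset (ZMod m → F), (Finset.univ.filter fun a => L a ∈ B).card =
      B.card * c := by
    intro B
    rw [Finset.card_eq_sum_card_fiberwise (f := L) (t := B)
      (fun a ha => by simpa using ha)]
    rw [← smul_eq_mul, ← Finset.sum_const]
    refine Finset.sum_congr rfl fun b hb => ?_
    rw [← hfib b]
    congr 1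
    ext a
    simp only [Finset.mem_filter, Finset.mem_univ, true_and]
    constructor
    · exact fun h => h.2
    · exact fun h => ⟨h ▸ hb, h⟩
  have hle : m ≤ n := Nat.le_of_dvd (Nat.pos_of_ne_zero (NeZero.ne n)) hmn
  have hc' : c = Nat.card F ^ (n - m) := by
    have h1 := hcount Finset.univ
    simp only [Finset.mem_univ, Finset.filter_true, Finset.card_univ, Fintype.card_fun,
      ZMod.card] at h1
    have h2 : Fintype.card F ^ n = Fintype.card F ^ m * Fintype.card F ^ (n - m) := by
      rw [← pow_add, Nat.add_sub_cancel' hle]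
    rw [h2] at h1
    rw [Nat.card_eq_fintype_card]
    exact (Nat.eq_of_mul_eq_mul_left (pow_pos Fintype.card_pos m) h1).symm
  have h1 : uu n F = (Finset.univ.filter fun a : ZMod n → F => IsUnit (cir a).det).card := by
    unfold uu
    rw [Set.ncard_eq_toFinset_card', Set.toFinset_ofPred]
  have h2 : uu m F = (Finset.univ.filter fun a : ZMod m → F => IsUnit (cir a).det).card := by
    unfold uu
    rw [Set.ncard_eq_toFinset_card', Set.toFinset_ofPred]
  rw [h1, h2, mul_comm, ← hc', ← hcount]
  congr 1
  ext a
  simp only [Finset.mem_filter, Finset.mem_univ, true_and]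
  exact unit_iff hC p k m F hp a

end Pool.Agent.CR257.Fold
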