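import Mathlib

/-!
# Blueprint for MP_d6eb29_al (circulant matrices with prescribed unit determinant)

`R` a finite commutative chain ring, `n = p^k m`, `p ∤ m`. A unit is the determinant of a circulant
`n × n` matrix iff it lies in `D p k R = {b₀^(p^k) + p b₁^(p^(k-1)) + ... + p^k b_k}` (the image of
the ghost component `w_k` of the Witt vectors), and all attained unit values are attained equally
often.
`dd f n` is the determinant of the circulant matrix `f(P)`, `P` the cyclic shift of order `n`; over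
an algebraically closed field of characteristic 0 it is `∏_{ξ^n = 1} f(ξ)`.
-/

set_option autoImplicit false

namespace Pool.Agent.CR257

open Polynomial

/-- The circulant matrix with first row `a`: entry `(i, j)` is `a (j - i)`, indices modulo `n`. -/
def cir {n : ℕ} {R : Type} (a : ZMod n → R) : Matrix (ZMod n) (ZMod n) R :=
  Matrix.of fun i j => a (j - i)

/-- `c_n(R, y)`: the number of circulant `n × n` matrices over `R` with determinant `y`. -/
noncomputable def cc (n : ℕ) [NeZero n] (R : Type) [CommRing R] (y : R) : ℕ :=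
  {A : Matrix (ZMod n) (ZMod n) R | (∃ a : ZMod n → R, A = cir a) ∧ A.det = y}.ncard

/-- The cyclic shift. -/
def P (n : ℕ) (R : Type) [CommRing R] : Matrix (ZMod n) (ZMod n) R :=
  Matrix.of fun i j => if j = i + 1 then 1 else 0

/-- The determinant of the circulant matrix `f(P)`. -/
noncomputable def dd {R : Type} [CommRing R] (f : R[X]) (n : ℕ) : R :=
  if h : n = 0 then 0 else
    haveI : NeZero n := ⟨h⟩
    (aeval (P n R) f).det

/-- The determinants of circulants. -/
def H (n : ℕ) (R : Type) [CommRing R] : Set R := {y | ∃ f : R[X], dd f n = y}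

/-- The ghost set `{b₀^(p^k) + p b₁^(p^(k-1)) + ... + p^k b_k}`. -/
def D (p k : ℕ) (R : Type) [CommRing R] : Set R :=
  {y | ∃ b : ℕ → R, y = ∑ j ∈ Finset.range (k + 1), (p : R) ^ j * b j ^ (p ^ (k - j))}

/-- `φ` is a lift of the Frobenius. -/
def Frob (p : ℕ) {A : Type} [CommRing A] (φ : A →+* A) : Prop :=
  ∀ a, ∃ c, φ a = a ^ p + p * c

/-- `1, 0, ..., 0` up to `j - 1`. -/
def One (p : ℕ) {A : Type} [CommRing A] (j : ℕ) (w : WittVector p A) : Prop :=
  w.coeff 0 = 1 ∧ ∀ i, 1 ≤ i → i < j → w.coeff i = 0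

/-- Multiplication by `∑ u_r x^r` on `B[x]/(x^p - y)`. -/
def tw {B : Type} [CommRing B] (p : ℕ) (u : ℕ → B) (y : B) : Matrix (Fin p) (Fin p) B :=
  Matrix.of fun i j => if i ≤ j then u (j.val - i.val) else y * u (p + j.val - i.val)

/-- `f = ∑_{r<p} x^r (part p r f)(x^p)`. -/
noncomputable def part {A : Type} [CommRing A] (p r : ℕ) (f : A[X]) : A[X] :=
  ∑ s ∈ Finset.range (f.natDegree + 1), C (f.coeff (r + p * s)) * X ^ s

/-- `x + x² + ... + x^(p^j)` -/
noncomputable def vv (A : Type) [CommRing A] (p j : ℕ) : A[X] :=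
  ∑ t ∈ Finset.range (p ^ j), X ^ (t + 1)

/-- `1 + b (v_j - p v_(j-1))` -/
noncomputable def FF {A : Type} [CommRing A] (p j : ℕ) (b : A) : A[X] :=
  1 + C b * (vv A p j - C (p : A) * vv A p (j - 1))

/-- number of circulants with unit determinant -/
noncomputable def uu (n : ℕ) [NeZero n] (R : Type) [CommRing R] : ℕ :=
  {a : ZMod n → R | IsUnit (cir a).det}.ncard

theorem dd_eq {R : Type} [CommRing R] (f : R[X]) (n : ℕ) [NeZero n] :
    dd f n = (aeval (P n R) f).det := by
  unfold dd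
  rw [dif_neg (NeZero.ne n)]

/-- Circulants are the polynomials in `P` (`P^r` has entry 1 at `(i, i+r)`); `P^n = 1`. -/
def TaskBridge : Prop := ∀ (n : ℕ) [NeZero n] (R : Type) [CommRing R], (P n R) ^ n = 1 ∧
  (∀ a : ZMod n → R, ∃ f : R[X], aeval (P n R) f = cir a) ∧
  (∀ f : R[X], ∃ a : ZMod n → R, aeval (P n R) f = cir a)

/-- `dd` is multiplicative in `f` and commutes with ring homomorphisms. -/
def TaskMul : Prop := ∀ (n : ℕ), 1 ≤ n → ∀ (A B : Type) [CommRing A] [CommRing B] (φ : A →+* B),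
  (∀ f g : A[X], dd (f * g) n = dd f n * dd g n) ∧ (dd (1 : A[X]) n = 1) ∧
  (∀ f : A[X], dd (f.map φ) n = φ (dd f n)) ∧ (∀ a : A, dd (C a) n = a ^ n)

/-- `WittVector.ghostComponent` is a ring homomorphism (`wittPolynomial` evaluated). -/
def TaskWitt : Prop := ∀ (p k : ℕ) [Fact p.Prime] (R : Type) [CommRing R],
  (∀ y : R, y ∈ D p k R ↔ ∃ x : WittVector p R, WittVector.ghostComponent k x = y) ∧
  ∀ x : WittVector p R, WittVector.ghostComponent k x =
    ∑ j ∈ Finset.range (k + 1), (p : R) ^ j * x.coeff j ^ (p ^ (k - j))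

/-- Sums over orbits of a permutation of `p`-power order: the orbit of `x` has `p^r` elements, `r`
minimal with `T^(p^r) x = x` (strong induction on the Finset, or sum over the orbits). -/
def TaskOrb : Prop := ∀ (p i : ℕ), p.Prime → ∀ (α R : Type) [Fintype α] [CommRing R]
  (T : Equiv.Perm α) (F : α → R) (S : AddSubgroup R), T ^ (p ^ i) = 1 → (∀ x, F (T x) = F x) →
  (∀ (x : α) (r : ℕ), r ≤ i → (T ^ (p ^ r)) x = x → (p ^ r) • F x ∈ S) → ∑ x, F x ∈ S

/-- Perturbation: `f(P) = cir w`, `g(P) = cir v`; expand the determinant over pairs (σ, S), `S ≠ ∅`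
the set of the positions where `p v` is chosen; translation by `m` acts (order `p^i`); if `(σ, S)`
is fixed by the translation by `p^r m` then `|S| ≥ p^(i-r) ≥ i - r + 1`; TaskOrb with the ideal
`p^(i+1) A`. -/
def TaskPL : Prop := ∀ (p i m : ℕ), p.Prime → 1 ≤ m → ∀ (A : Type) [CommRing A] (f g : A[X]),
  ∃ E : A, dd (f + C (p : A) * g) (p ^ i * m) = dd f (p ^ i * m) + (p : A) ^ (i + 1) * E

/-- `det (tw p u y) = ∑ u_j^p y^j` modulo `p`: the determinant is the norm of `U = ∑ u_j x^j` of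
`B[x]/(x^p - y)`; modulo `p`: `N(U)^p = N(U^p) = N(∑ u_j^p y^j) = (∑ u_j^p y^j)^p` and Frobenius is
injective in the universal ring `F_p[u_0..u_(p-1), y]`. -/
def TaskTwist : Prop := ∀ (p : ℕ), p.Prime → ∀ (B : Type) [CommRing B] (u : ℕ → B) (y : B),
  ∃ E : B, (tw p u y).det = ∑ j ∈ Finset.range p, u j ^ p * y ^ j + p * E

/-- Norm in two steps, `A[C_(pn)] / A[C_n] / A` (`C_n` generated by `y = x^p`): commuting blocks
(`Matrix.det` of a block matrix with commuting blocks, `Algebra.norm_norm`,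
`LinearMap.det_restrictScalars`), or universal coefficients and roots of unity. -/
def TaskBlock : Prop := ∀ (p n : ℕ), 1 ≤ p → 1 ≤ n → ∀ (A : Type) [CommRing A] (f : A[X]),
  dd f (p * n) = dd (tw p (fun r => part p r f) (X : A[X])).det n

/-- from TaskTwist (B = A[X], y = X), TaskBlock, and the freshman's dream modulo p -/
def TaskNorm : Prop := ∀ (p n : ℕ), p.Prime → 1 ≤ n → ∀ (A : Type) [CommRing A] (f : A[X]),
  ∃ g : A[X], dd f (p * n) =
    dd (∑ i ∈ Finset.range (f.natDegree + 1), C (f.coeff i ^ p) * X ^ i + C (p : A) * g) n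

/-- from TaskNorm, TaskPL, TaskMul (`φ (dd f n) = dd (f.map φ) n`) -/
def TaskFC : Prop := ∀ (p i m : ℕ), p.Prime → 1 ≤ m → ∀ (A : Type) [CommRing A] (φ : A →+* A),
  Frob p φ → ∀ f : A[X],
  ∃ E : A, dd f (p ^ (i + 1) * m) = φ (dd f (p ^ i * m)) + (p : A) ^ (i + 1) * E

/-- Dwork's lemma: choose the coefficients one after the other; `φ a ≡ a^p (p)` gives
`φ(a)^(p^r) ≡ a^(p^(r+1)) (p^(r+1))` (`dvd_sub_pow_of_dvd_sub`). -/
def TaskDwork : Prop := ∀ (p : ℕ) [Fact p.Prime] (A : Type) [CommRing A] (φ : A →+* A),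
  (∀ a : A, (p : A) * a = 0 → a = 0) → Frob p φ → ∀ x : ℕ → A,
  (∀ i, ∃ E, x (i + 1) = φ (x i) + (p : A) ^ (i + 1) * E) →
  ∃ w : WittVector p A, ∀ i, WittVector.ghostComponent i w = x i

/-- from TaskFC, TaskDwork, TaskWitt, TaskMul: universal ring `MvPolynomial ℕ ℤ` with
`φ = MvPolynomial.expand p` (`x i = dd F (p^i m)`), then specialise. -/
def TaskSub : Prop := ∀ (p k m : ℕ), p.Prime → 1 ≤ m → ∀ (R : Type) [CommRing R] (f : R[X]),
  dd f (p ^ k * m) ∈ D p k R

/-- In order `p^i`, `i ≤ j`: `v_j(P) = p^(j-i) J` with `J` all ones; `det (1 + b J) = 1 + b p^j`. -/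
def TaskVal : Prop := ∀ (p j : ℕ), p.Prime → 1 ≤ j → ∀ (A : Type) [CommRing A] (b : A),
  (∀ i, i < j → dd (FF p j b) (p ^ i) = 1) ∧
  dd (1 + C b * vv A p j) (p ^ j) = 1 + (p : A) ^ j * b

/-- `F = FF p j X`; TaskFC (m = 1) and TaskDwork (`ℤ[X]`, `φ = Polynomial.expand p`) give `w`; its
coefficients by TaskVal, TaskPL (`F = (1 + b v_j) + p (-b v_(j-1))`) and the formula of TaskWitt. -/
def TaskPsi : Prop := ∀ (p j : ℕ) [Fact p.Prime], 1 ≤ j →
  ∃ (w : WittVector p ℤ[X]) (h : ℤ[X]),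
    (∀ i, WittVector.ghostComponent i w = dd (FF p j (X : ℤ[X])) (p ^ i)) ∧ One p j w ∧
    w.coeff j = X + C (p : ℤ) * h

/-- `b ↦ b + p h(b)` is injective as `p` is nilpotent, so surjective. -/
def TaskSurj : Prop := ∀ (p : ℕ) (R : Type) [CommRing R] [Finite R] (h : ℤ[X]) (c : R),
  IsNilpotent (p : R) → ∃ b : R, b + p * aeval b h = c

/-- `a = 1 + V^j s`, `z = 1 + V^j t`, `a z = 1 + V^j (s + t + p^j s t)` (`frobenius_verschiebung`,
`iterate_verschiebung_mul_left`, `coeff_add_of_disjoint`); or universally by ghost components. -/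
def TaskVmul : Prop := ∀ (p j : ℕ) [Fact p.Prime], 1 ≤ j → ∀ (R : Type) [CommRing R]
  (a z : WittVector p R), One p j a → One p j z → One p j (a * z) ∧
  (a * z).coeff j = a.coeff j + z.coeff j + (p : R) ^ j * (a.coeff j * z.coeff j)

/-- `H` is closed under products, and under inverses of units (finite ring: `x⁻¹` is a power). -/
def TaskUnitH : Prop := ∀ (n : ℕ), 1 ≤ n → ∀ (R : Type) [CommRing R] [Finite R],
  (1 : R) ∈ H n R ∧ (∀ x y : R, x ∈ H n R → y ∈ H n R → x * y ∈ H n R) ∧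
  ∀ x y : R, IsUnit x → x ∈ H n R → x * y ∈ H n R → y ∈ H n R

/-- Downward induction on `j` (from `j = k + 1`, where the ghost component is 1): if `One p j a`,
choose `b` with TaskSurj such that `z = w.map` (TaskPsi, `X ↦ b`) has `z_j = -a_j/(1 + p^j a_j)`;
then `One p (j+1) (a z)` by TaskVmul; ghost_k(z) = dd (FF p j b) (p^k) ∈ H is a unit; TaskUnitH. -/
def TaskFilt : Prop := ∀ (p k : ℕ) [Fact p.Prime] (R : Type) [CommRing R] [Finite R],
  IsNilpotent (p : R) → ∀ a : WittVector p R, a.coeff 0 = 1 →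
  WittVector.ghostComponent k a ∈ H (p ^ k) R

/-- from TaskWitt, TaskFilt, TaskUnitH, TaskMul: `a = teichmuller a₀ * a'` -/
def TaskUnitD : Prop := ∀ (p k : ℕ) [Fact p.Prime] (R : Type) [CommRing R] [Finite R],
  IsNilpotent (p : R) → ∀ y ∈ D p k R, IsUnit y → y ∈ H (p ^ k) R

/-- `e = (1/m) ∑_{t<m} X^(N t)` is idempotent modulo `X^(N m) - 1`; `g = f e + (1 - e)` has
`dd g (N m) = dd f N` (e.g. base change by the matrix of the basis `X^(N t + r)`, blocks). -/
def TaskUp : Prop := ∀ (N m : ℕ), 1 ≤ N → 1 ≤ m → ∀ (R : Type) [CommRing R], IsUnit (m : R) →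
  H N R ⊆ H (N * m) R

/-- Reduction modulo the maximal ideal. -/
def TaskRed : Prop := ∀ (n : ℕ) [NeZero n] (R : Type) [CommRing R] [Finite R] [IsLocalRing R],
  uu n R = Nat.card (IsLocalRing.maximalIdeal R) ^ n * uu n (IsLocalRing.ResidueField R)

/-- Over a field `f(P)` is invertible iff `f` is coprime to `X^n - 1`. -/
def TaskCop : Prop := ∀ (n : ℕ), 1 ≤ n → ∀ (F : Type) [Field F] (f : F[X]),
  dd f n ≠ 0 ↔ IsCoprime f (X ^ n - 1)

/-- `X^(p^k m) - 1 = (X^m - 1)^(p^k)`; the map `a ↦ (g ↦ ∑_{h ≡ g mod m} a h)` is linear,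
surjective and has fibres of `q^(n-m)` elements (TaskCop, TaskBridge). -/
def TaskFold : Prop := ∀ (p k m : ℕ) [NeZero m] [NeZero (p ^ k * m)] (F : Type) [Field F]
  [Finite F] [CharP F p], p.Prime →
  uu (p ^ k * m) F = Nat.card F ^ (p ^ k * m - m) * uu m F

/-- Units of `F[X]/(X^m - 1)`: Chinese remainder theorem, `X^m - 1 = ∏ cyclotomic d`,
`Polynomial.normalizedFactors_cyclotomic_card`, `natDegree_of_mem_normalizedFactors_cyclotomic`. -/
def TaskCyc : Prop := ∀ (m : ℕ) [NeZero m] (F : Type) [Field F] [Finite F],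
  m.Coprime (Nat.card F) → uu m F = ∏ d ∈ m.divisors,
    (Nat.card F ^ orderOf (Nat.card F : ZMod d) - 1) ^
      (Nat.totient d / orderOf (Nat.card F : ZMod d))

/-- `γ^i R / γ^(i+1) R` has `q` elements for `i < e`. -/
def TaskCard : Prop := ∀ (R : Type) [CommRing R] [Finite R] [IsLocalRing R] (γ : R) (e : ℕ),
  IsLocalRing.maximalIdeal R = Ideal.span {γ} → IsLeast {i : ℕ | 1 ≤ i ∧ γ ^ i = 0} e →
  Nat.card (IsLocalRing.maximalIdeal R) =
    Nat.card (IsLocalRing.ResidueField R) ^ (e - 1) ∧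
  Nat.card R = Nat.card (IsLocalRing.ResidueField R) ^ e

/-- A finite chain ring is local with principal maximal ideal. -/
def TaskChain : Prop := ∀ (R : Type) [CommRing R] [Finite R] [Nontrivial R],
  (∀ I J : Ideal R, I ≤ J ∨ J ≤ I) → ∃ _ : IsLocalRing R, ∃ γ : R,
    IsLocalRing.maximalIdeal R = Ideal.span {γ} ∧ IsNilpotent γ

/-- All attained unit values are attained equally often (multiplication by `M` with `det M = y`). -/
def TaskFib : Prop := ∀ (n : ℕ) [NeZero n] (R : Type) [CommRing R] [Finite R],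
  (∀ y : R, y ∉ H n R → cc n R y = 0) ∧
  ∀ y ∈ H n R, IsUnit y → cc n R y * {z : R | z ∈ H n R ∧ IsUnit z}.ncard = uu n R

end Pool.Agent.CR257
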