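import Mathlib
import Pool.Agent.CR257.Stmts

set_option autoImplicit false

namespace Pool.Agent.CR257.Norm

open Polynomial

theorem sum_pow_p {R : Type} [CommRing R] {p : ℕ} (hp : p.Prime) {ι : Type} (T : Finset ι) (a : ι → R) :
    ∃ r, (∑ s ∈ T, a s) ^ p = ∑ s ∈ T, a s ^ p + p * r := by
  classical
  induction T using Finset.induction_on with
  | empty => exact ⟨0, by simp [hp.ne_zero]⟩
  | insert i T hi ih =>
    obtain ⟨r, hr⟩ := ih
    obtain ⟨q, hq⟩ := exists_add_pow_prime_eq hp (a i) (∑ s ∈ T, a s)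
    refine ⟨r + a i * (∑ s ∈ T, a s) * q, ?_⟩
    rw [Finset.sum_insert hi, Finset.sum_insert hi, hq, hr]
    ring

theorem double {M : Type} [AddCommMonoid M] (F : ℕ → M) (p K : ℕ) :
    ∑ s ∈ Finset.range K, ∑ j ∈ Finset.range p, F (j + p * s) = ∑ i ∈ Finset.range (p * K), F i := by
  induction K with
  | zero => simp
  | succ K ih =>
    rw [Finset.sum_range_succ, ih, Nat.mul_succ, Finset.sum_range_add]
    congr 1
    exact Finset.sum_congr rfl fun j _ => by rw [add_comm]

theorem main (hT : Pool.Agent.CR257.TaskTwist) (hB : Pool.Agent.CR257.TaskBlock) : Pool.Agent.CR257.TaskNorm := by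
  intro p n hp hn A _ f
  obtain ⟨E, hE⟩ := hT p hp A[X] (fun r => part p r f) X
  have hb := hB p n hp.one_le hn A f
  -- the parts
  have h1 : ∀ j, ∃ r : A[X], (part p j f) ^ p * X ^ j =
      ∑ s ∈ Finset.range (f.natDegree + 1), C (f.coeff (j + p * s) ^ p) * X ^ (j + p * s) + (p : A[X]) * r := by
    intro j
    obtain ⟨r, hr⟩ := sum_pow_p hp (Finset.range (f.natDegree + 1)) (fun s => C (f.coeff (j + p * s)) * X ^ s)
    refine ⟨r * X ^ j, ?_⟩
    unfold part
    rw [hr, add_mul, Finset.sum_mul, mul_assoc]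
    congr 1
    refine Finset.sum_congr rfl fun s _ => ?_
    rw [mul_pow, C_pow, mul_assoc, ← pow_mul, ← pow_add]
    congr 2
    ring
  choose r hr using h1
  have h2 : ∑ j ∈ Finset.range p, (part p j f) ^ p * X ^ j =
      ∑ i ∈ Finset.range (f.natDegree + 1), C (f.coeff i ^ p) * X ^ i +
        (p : A[X]) * ∑ j ∈ Finset.range p, r j := by
    rw [Finset.sum_congr rfl fun j _ => hr j, Finset.sum_add_distrib, Finset.mul_sum]
    congr 1
    rw [Finset.sum_comm, double (fun i => C (f.coeff i ^ p) * X ^ i)]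
    symm
    refine Finset.sum_subset ?_ ?_
    · intro i hi
      rw [Finset.mem_range] at hi ⊢
      have : 1 * (f.natDegree + 1) ≤ p * (f.natDegree + 1) := Nat.mul_le_mul_right _ hp.one_le
      omega
    · intro i _ hi
      rw [Finset.mem_range, not_lt] at hi
      rw [coeff_eq_zero_of_natDegree_lt (by omega), zero_pow hp.ne_zero, C_0, zero_mul]
  refine ⟨∑ j ∈ Finset.range p, r j + E, ?_⟩
  rw [hb, hE, h2]
  congr 1
  rw [show (C (p : A) : A[X]) = (p : A[X]) from map_natCast C p]
  ring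

end Pool.Agent.CR257.Norm
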