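import Pool.Agent.CR257.Stmts

set_option autoImplicit false

namespace Pool.Agent.CR257

open Polynomial

theorem taskMul : TaskMul := by
  intro n hn A B _ _ φ
  haveI : NeZero n := ⟨by omega⟩
  have hP : (P n A).map φ = P n B := by
    ext i j
    simp only [P, Matrix.map_apply, Matrix.of_apply]
    split_ifs
    · exact map_one φ
    · exact map_zero φ
  refine ⟨fun f g => ?_, ?_, fun f => ?_, fun a => ?_⟩
  · rw [dd_eq, dd_eq, dd_eq, map_mul, Matrix.det_mul]
  · rw [dd_eq, map_one, Matrix.det_one]
  · rw [dd_eq, dd_eq, RingHom.map_det]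
    congr 1
    change aeval (P n B) (f.map φ) = φ.mapMatrix (aeval (P n A) f)
    rw [← hP]
    induction f using Polynomial.induction_on' with
    | add p q hp hq => rw [Polynomial.map_add, map_add, map_add, map_add, hp, hq]
    | monomial k a =>
      rw [Polynomial.map_monomial, aeval_monomial, aeval_monomial, map_mul, map_pow]
      congr 1
      rw [Matrix.algebraMap_eq_diagonal, Matrix.algebraMap_eq_diagonal]
      simp only [RingHom.mapMatrix_apply]
      rw [Matrix.diagonal_map (map_zero φ)]
      rfl
  · rw [dd_eq, aeval_C, Matrix.algebraMap_eq_diagonal, Matrix.det_diagonal]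
    simp [ZMod.card]

end Pool.Agent.CR257
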