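import Pool.Agent.CR257.Block

set_option autoImplicit false

namespace Pool.Agent.CR257.Twist

open Polynomial Pool.Agent.CR257 Pool.Agent.CR257.Block

variable {B : Type} [CommRing B]

/-- the polynomial `∑ u_j X^j` -/
noncomputable def gg (p : ℕ) (u : ℕ → B) : B[X] := ∑ j ∈ Finset.range p, C (u j) * X ^ j

theorem coeff_gg (p : ℕ) (u : ℕ → B) (s : ℕ) : (gg p u).coeff s = if s < p then u s else 0 := by
  unfold gg
  rw [finsetSum_coeff]
  simp only [coeff_C_mul, coeff_X_pow, mul_ite, mul_one, mul_zero]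
  rw [Finset.sum_ite_eq]
  simp only [Finset.mem_range]

theorem part_gg (p : ℕ) (hp : 1 ≤ p) (u : ℕ → B) (r : ℕ) (hr : r < p) : part p r (gg p u) = C (u r) := by
  ext s
  rw [coeff_part p r hp, coeff_gg, coeff_C]
  by_cases hs : s = 0
  · subst hs
    rw [mul_zero, add_zero, if_pos hr, if_pos rfl]
  · rw [if_neg hs, if_neg]
    have : p * 1 ≤ p * s := Nat.mul_le_mul_left _ (Nat.pos_of_ne_zero hs)
    omega

/-- the matrix of `x` -/
noncomputable def Wy (p : ℕ) (y : B) : Matrix (Fin p) (Fin p) B :=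
  (aeval y : B[X] →ₐ[B] B).mapMatrix (W B p)

theorem tw_eq (p : ℕ) (hp : 1 ≤ p) (u : ℕ → B) (y : B) : tw p u y = aeval (Wy p y) (gg p u) := by
  rw [Wy, aeval_algHom_apply, ← T_eq p hp]
  ext1 i j
  have hi := i.2
  have hj := j.2
  show (if i ≤ j then u (j.val - i.val) else y * u (p + j.val - i.val)) = aeval y (T p (gg p u) i j)
  rw [T_apply]
  by_cases h : (i : ℕ) ≤ j
  · rw [if_pos h, if_pos (show i ≤ j from h), part_gg p hp u _ (by omega), aeval_C]
    rfl
  · rw [if_neg h, if_neg (show ¬ i ≤ j from h), part_gg p hp u _ (by omega), map_mul, aeval_X, aeval_C]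
    rfl

theorem W_pow (p : ℕ) (hp : 1 ≤ p) : (W B p) ^ p = Matrix.diagonal (fun _ => (X : B[X])) := by
  have h : (W B p) ^ p = T p (X ^ p) := by rw [T_eq p hp, map_pow, aeval_X]
  rw [h]
  have h0 : part p 0 (X ^ p : B[X]) = X := by
    ext s
    rw [coeff_part p 0 hp, coeff_X_pow, coeff_X, zero_add]
    congr 1
    apply propext
    constructor
    · intro h1
      have : p * s = p * 1 := by omega
      exact (Nat.eq_of_mul_eq_mul_left hp this).symm
    · rintro rfl
      omega
  have h1 : ∀ r, r ≠ 0 → r < p → part p r (X ^ p : B[X]) = 0 := by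
    intro r hr hr2
    ext s
    rw [coeff_part p r hp, coeff_X_pow, coeff_zero, if_neg]
    intro h3
    have h4 : r = p * (1 - s) := by
      rcases s with _ | _ | s
      · omega
      · omega
      · have : p * (s + 1 + 1) = p * s + p + p := by ring
        omega
    rcases s with _ | _ | s
    · omega
    · omega
    · have : p * (s + 1 + 1) = p * s + p + p := by ring
      omega
  ext1 i j
  have hi := i.2
  have hj := j.2
  rw [T_apply]
  by_cases hij : i = j
  · subst hij
    rw [if_pos le_rfl, Nat.sub_self, h0, Matrix.diagonal_apply_eq]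
  · rw [Matrix.diagonal_apply_ne _ hij]
    have hij' : (i : ℕ) ≠ j := fun h => hij (Fin.ext h)
    split_ifs with h
    · exact h1 _ (by omega) (by omega)
    · rw [h1 _ (by omega) (by omega), mul_zero]

theorem Wy_pow (p : ℕ) (hp : 1 ≤ p) (y : B) : (Wy p y) ^ p = algebraMap B _ y := by
  rw [Wy, ← map_pow, W_pow p hp, Matrix.algebraMap_eq_diagonal]
  ext1 i j
  by_cases hij : i = j
  · subst hij
    simp
  · simp [hij]

theorem charp (p : ℕ) [Fact p.Prime] [CharP B p] [IsReduced B] (u : ℕ → B) (y : B) :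
    (tw p u y).det = ∑ j ∈ Finset.range p, u j ^ p * y ^ j := by
  have hp : 1 ≤ p := (Fact.out : p.Prime).one_le
  have h1 : (tw p u y) ^ p = algebraMap B _ (∑ j ∈ Finset.range p, u j ^ p * y ^ j) := by
    rw [tw_eq p hp, ← map_pow, gg, sum_pow_char, map_sum, map_sum]
    refine Finset.sum_congr rfl fun j _ => ?_
    rw [mul_pow, map_mul, map_mul, ← C_pow, aeval_C, ← pow_mul, mul_comm j p, pow_mul]
    simp only [map_pow, aeval_X, Wy_pow p hp]
  have h2 : (tw p u y).det ^ p = (∑ j ∈ Finset.range p, u j ^ p * y ^ j) ^ p := by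
    rw [← Matrix.det_pow, h1, Matrix.algebraMap_eq_diagonal, Matrix.det_diagonal]
    simp
  exact frobenius_inj B p h2

theorem tw_map {A : Type} [CommRing A] (φ : A →+* B) (p : ℕ) (u : ℕ → A) (y : A) :
    φ.mapMatrix (tw p u y) = tw p (fun j => φ (u j)) (φ y) := by
  ext1 i j
  show φ (if i ≤ j then _ else _) = if i ≤ j then _ else _
  split_ifs
  · rfl
  · rw [map_mul]

theorem main : TaskTwist := by
  intro p hp B _ u y
  haveI : Fact p.Prime := ⟨hp⟩
  let R0 := MvPolynomial (Option ℕ) ℤ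
  let u0 : ℕ → R0 := fun j => MvPolynomial.X (some j)
  let y0 : R0 := MvPolynomial.X none
  have h1 : MvPolynomial.C (p : ℤ) ∣ (tw p u0 y0).det - ∑ j ∈ Finset.range p, u0 j ^ p * y0 ^ j := by
    rw [MvPolynomial.C_dvd_iff_zmod, map_sub, RingHom.map_det, tw_map, charp, map_sum, sub_eq_zero]
    refine Finset.sum_congr rfl fun j _ => ?_
    rw [map_mul, map_pow, map_pow]
  obtain ⟨E, hE⟩ := h1
  let ψ : R0 →+* B := MvPolynomial.eval₂Hom (Int.castRingHom B) (fun o => Option.elim o y u)
  refine ⟨ψ E, ?_⟩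
  have h2 := congrArg ψ hE
  rw [map_sub, RingHom.map_det, tw_map, map_sum, map_mul] at h2
  have h3 : ∀ j, ψ (u0 j) = u j := fun j => MvPolynomial.eval₂Hom_X' _ _ _
  have h4 : ψ y0 = y := MvPolynomial.eval₂Hom_X' _ _ _
  have h5 : ψ (MvPolynomial.C (p : ℤ)) = p := by simp [ψ]
  simp only [map_mul, map_pow, h3, h4, h5] at h2
  rw [← h2]
  ring

end Pool.Agent.CR257.Twist
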