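import Pool.Agent.CR257.Cor2
import Pool.Agent.CR257.Fold
import Pool.Agent.CR257.TaskMul
import Pool.Agent.CR257.Norm
import Pool.Agent.CR257.Twist
import Pool.Agent.CR257.Block

set_option autoImplicit false

namespace Pool.Agent.CR257.NonUnit

open Polynomial Pool.Agent.CR257 Pool.Agent.CR257.Fold

theorem dd_charp (p k m : ℕ) (hp : p.Prime) (hm : 1 ≤ m) (A : Type) [CommRing A]
    (hc : (p : A) = 0) (f : A[X]) : dd f (p ^ k * m) = (dd f m) ^ (p ^ k) := by
  haveI : CharP A p ∨ True := Or.inr trivial
  haveI : Fact p.Prime := ⟨hp⟩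
  induction k with
  | zero => simp
  | succ k ih =>
    have hN : TaskNorm := Norm.main Twist.main Block.main
    have hn : 1 ≤ p ^ k * m := Nat.mul_pos (pow_pos hp.pos k) hm
    obtain ⟨g, hg⟩ := hN p (p ^ k * m) hp hn A f
    by_cases hA : Nontrivial A
    · haveI : CharP A p := (CharP.charP_iff_prime_eq_zero hp).2 hc
      have h1 : ∑ i ∈ Finset.range (f.natDegree + 1), C (f.coeff i ^ p) * X ^ i + C (p : A) * g =
          f.map (frobenius A p) := by
        rw [hc, C_0, zero_mul, add_zero]
        conv_rhs => rw [f.as_sum_range_C_mul_X_pow]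
        rw [Polynomial.map_sum]
        refine Finset.sum_congr rfl fun i _ => ?_
        rw [Polynomial.map_mul, Polynomial.map_C, Polynomial.map_pow, Polynomial.map_X,
          frobenius_def]
      rw [h1, (taskMul (p ^ k * m) hn A A (frobenius A p)).2.2.1, frobenius_def, ih, ← pow_mul,
        ← pow_succ] at hg
      rw [← hg]
      congr 1
      rw [pow_succ]; ring
    · haveI := not_nontrivial_iff_subsingleton.1 hA
      exact Subsingleton.elim _ _

theorem count (p k m : ℕ) [NeZero m] [NeZero (p ^ k * m)] (R : Type) [CommRing R] [Fintype R]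
    [DecidableEq R] (hp : p.Prime) (hc0 : (p : R) = 0) (y : R) :
    (Finset.univ.filter fun a : ZMod (p ^ k * m) → R => (cir a).det = y).card =
      Fintype.card R ^ (p ^ k * m - m) *
        (Finset.univ.filter fun b : ZMod m → R => (cir b).det ^ (p ^ k) = y).card := by
  classical
  set n := p ^ k * m with hn
  have hmn : m ∣ n := Dvd.intro_left _ rfl
  set L := fold n m hmn R with hL
  have hsurj : Function.Surjective L := by
    intro b
    obtain ⟨f, rfl⟩ := co_surj m R b
    exact ⟨co n f, fold_co n m hmn R f⟩
  have hfib : ∀ b : ZMod m → R, (Finset.univ.filter fun a => L a = b).card =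
      (Finset.univ.filter fun a => L a = 0).card := fun b =>
    AddMonoidHom.card_fiber_eq_of_mem_range L (hsurj b) (hsurj 0)
  set c := (Finset.univ.filter fun a => L a = 0).card with hc
  have hcount : ∀ B : Finset (ZMod m → R), (Finset.univ.filter fun a => L a ∈ B).card =
      B.card * c := by
    intro B
    rw [Finset.card_eq_sum_card_fiberwise (f := L) (t := B)
      (fun a ha => by simpa using ha)]
    rw [← smul_eq_mul, ← Finset.sum_const]
    refine Finset.sum_congr rfl fun b hb => ?_
    rw [← hfib b]
    congr 1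
    ext a
    simp only [Finset.mem_filter, Finset.mem_univ, true_and]
    constructor
    · exact fun h => h.2
    · exact fun h => ⟨h ▸ hb, h⟩
  have hle : m ≤ n := Nat.le_of_dvd (Nat.pos_of_ne_zero (NeZero.ne n)) hmn
  have hRpos : 0 < Fintype.card R := Fintype.card_pos
  have hc' : c = Fintype.card R ^ (n - m) := by
    have h1 := hcount Finset.univ
    have h2 : (Finset.univ.filter fun a : ZMod n → R => L a ∈ Finset.univ).card =
        Fintype.card R ^ n := by
      rw [Finset.filter_true_of_mem (fun _ _ => Finset.mem_univ _), Finset.card_univ,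
        Fintype.card_fun, ZMod.card]
    rw [h2, Finset.card_univ, Fintype.card_fun, ZMod.card] at h1
    have h3 : Fintype.card R ^ n = Fintype.card R ^ m * Fintype.card R ^ (n - m) := by
      rw [← pow_add, Nat.add_sub_cancel' hle]
    rw [h3] at h1
    exact (Nat.eq_of_mul_eq_mul_left (pow_pos hRpos m) h1).symm
  have key : ∀ a : ZMod n → R, (cir a).det = (cir (L a)).det ^ (p ^ k) := by
    intro a
    obtain ⟨f, rfl⟩ := co_surj n R a
    rw [hL, fold_co, ← aeval_P, ← aeval_P, ← dd_eq, ← dd_eq]
    exact dd_charp p k m hp NeZero.one_le R hc0 f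
  have h5 := hcount (Finset.univ.filter fun b : ZMod m → R => (cir b).det ^ (p ^ k) = y)
  rw [hc', mul_comm] at h5
  rw [← h5]
  congr 1
  ext a
  simp only [Finset.mem_filter, Finset.mem_univ, true_and]
  rw [key a]

end Pool.Agent.CR257.NonUnit
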