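import Pool.Agent.CR257.Stmts

set_option autoImplicit false

namespace Pool.Agent.CR257.Orb

open Pool.Agent.CR257 MulAction in
theorem main : TaskOrb := by
  intro p i hp α R _ _ T F S hT hF hS
  classical
  have hpow : ∀ (k : ℕ) (x : α), F ((T ^ k) x) = F x := by
    intro k
    induction k with
    | zero => intro x; simp
    | succ k ih => intro x; rw [pow_succ', Equiv.Perm.mul_apply, hF, ih]
  have hfin : IsOfFinOrder T := isOfFinOrder_iff_pow_eq_one.2 ⟨p ^ i, Nat.pow_pos hp.pos, hT⟩
  have hconst : ∀ (g : Subgroup.zpowers T) (x : α), F (g • x) = F x := by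
    rintro ⟨g, hg⟩ x
    obtain ⟨k, hk⟩ := (hfin.mem_powers_iff_mem_zpowers (y := g)).2 hg
    have hk' : T ^ k = g := hk
    have h1 : (⟨g, hg⟩ : Subgroup.zpowers T) • x = (T ^ k) x := by
      rw [hk']; rfl
    rw [h1, hpow]
  rw [← Finset.sum_fiberwise Finset.univ
    (fun x => (Quotient.mk'' x : MulAction.orbitRel.Quotient (Subgroup.zpowers T) α)) F]
  refine S.sum_mem fun ω _ => ?_
  induction ω using Quotient.inductionOn' with
  | h x =>
    have h1 : (Finset.univ.filter fun y =>
        (Quotient.mk'' y : MulAction.orbitRel.Quotient (Subgroup.zpowers T) α) = Quotient.mk'' x) =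
        (MulAction.orbit (Subgroup.zpowers T) x).toFinset := by
      ext y
      simp only [Finset.mem_filter, Finset.mem_univ, true_and, Set.mem_toFinset]
      rw [Quotient.eq'']
      rfl
    rw [h1]
    have h2 : ∀ y ∈ (MulAction.orbit (Subgroup.zpowers T) x).toFinset, F y = F x := by
      intro y hy
      rw [Set.mem_toFinset] at hy
      obtain ⟨g, rfl⟩ := hy
      exact hconst g x
    rw [Finset.sum_congr rfl h2, Finset.sum_const, Set.toFinset_card]
    have h3 : Function.minimalPeriod (T • ·) x =
        Fintype.card (MulAction.orbit (Subgroup.zpowers T) x) := by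
      have := MulAction.minimalPeriod_eq_card (a := T) (b := x)
      convert this
    rw [← h3]
    have h4 : Function.minimalPeriod (T • ·) x ∣ p ^ i := by
      refine Function.IsPeriodicPt.minimalPeriod_dvd ?_
      have : ∀ n : ℕ, (fun y : α => T • y)^[n] x = (T ^ n) x := by
        intro n
        rw [smul_iterate]
        rfl
      rw [Function.IsPeriodicPt, Function.IsFixedPt, this, hT]
      rfl
    obtain ⟨r, hr, hr2⟩ := (Nat.dvd_prime_pow hp).1 h4
    rw [hr2]
    refine hS x r hr ?_
    have h5 := Function.isPeriodicPt_minimalPeriod (T • ·) x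
    rw [hr2, Function.IsPeriodicPt, Function.IsFixedPt, smul_iterate] at h5
    exact h5

end Pool.Agent.CR257.Orb
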