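import Pool.Agent.CR257.Stmts

set_option autoImplicit false

namespace Pool.Agent.CR257.PL

open Polynomial Finset

variable {n : ℕ} [NeZero n]

/-- translation of a pair -/
def Tf (t : ZMod n) (x : Equiv.Perm (ZMod n) × Finset (ZMod n)) :
    Equiv.Perm (ZMod n) × Finset (ZMod n) :=
  ((Equiv.addRight t).permCongr x.1, x.2.map (Equiv.addRight t).toEmbedding)

theorem Tf_Tf (s t : ZMod n) (x : Equiv.Perm (ZMod n) × Finset (ZMod n)) :
    Tf s (Tf t x) = Tf (t + s) x := by
  refine Prod.ext ?_ ?_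
  · ext1 a
    show x.1 (a + -s + -t) + t + s = x.1 (a + -(t + s)) + (t + s)
    rw [add_assoc, show a + -s + -t = a + -(t + s) by ring]
  · show (x.2.map (Equiv.addRight t).toEmbedding).map (Equiv.addRight s).toEmbedding =
      x.2.map (Equiv.addRight (t + s)).toEmbedding
    rw [Finset.map_map]
    congr 1
    ext a
    show a + t + s = a + (t + s)
    ring

theorem Tf_zero (x : Equiv.Perm (ZMod n) × Finset (ZMod n)) : Tf 0 x = x := by
  refine Prod.ext ?_ ?_
  · ext1 a
    show x.1 (a + -0) + 0 = x.1 a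
    rw [neg_zero, add_zero, add_zero]
  · show x.2.map (Equiv.addRight (0 : ZMod n)).toEmbedding = x.2
    ext a
    simp only [Equiv.addRight_zero, Finset.mem_map_equiv]
    exact Iff.rfl

/-- translation as a permutation -/
def T (t : ZMod n) : Equiv.Perm (Equiv.Perm (ZMod n) × Finset (ZMod n)) where
  toFun := Tf t
  invFun := Tf (-t)
  left_inv x := by rw [Tf_Tf, add_neg_cancel, Tf_zero]
  right_inv x := by rw [Tf_Tf, neg_add_cancel, Tf_zero]

theorem T_pow (t : ZMod n) (k : ℕ) (x : Equiv.Perm (ZMod n) × Finset (ZMod n)) :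
    (T t ^ k) x = Tf ((k : ZMod n) * t) x := by
  induction k with
  | zero => rw [pow_zero, Nat.cast_zero, zero_mul, Tf_zero]; rfl
  | succ k ih =>
    rw [pow_succ', Equiv.Perm.mul_apply, ih]
    show Tf t (Tf _ x) = _
    rw [Tf_Tf, Nat.cast_succ, add_mul, one_mul]

open Classical in
/-- the terms -/
noncomputable def FT {A : Type} [CommRing A] (p : ℕ) (w v : ZMod n → A)
    (x : Equiv.Perm (ZMod n) × Finset (ZMod n)) : A :=
  if x.2 = ∅ then 0 else (Equiv.Perm.sign x.1 : A) *
    ((∏ j ∈ x.2, (p : A) * v (j - x.1 j)) * ∏ j ∈ univ \ x.2, w (j - x.1 j))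

theorem FT_T {A : Type} [CommRing A] (p : ℕ) (w v : ZMod n → A) (t : ZMod n)
    (x : Equiv.Perm (ZMod n) × Finset (ZMod n)) : FT p w v (Tf t x) = FT p w v x := by
  classical
  unfold FT
  have h1 : (Tf t x).2 = x.2.map (Equiv.addRight t).toEmbedding := rfl
  have h2 : ∀ j, (Equiv.addRight t).toEmbedding j - (Tf t x).1 ((Equiv.addRight t).toEmbedding j) =
      j - x.1 j := by
    intro j
    show (j + t) - (x.1 (j + t + -t) + t) = j - x.1 j
    rw [add_neg_cancel_right]
    ring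
  have h3 : Equiv.Perm.sign (Tf t x).1 = Equiv.Perm.sign x.1 :=
    Equiv.Perm.sign_permCongr _ _
  have h4 : univ \ x.2.map (Equiv.addRight t).toEmbedding =
      (univ \ x.2).map (Equiv.addRight t).toEmbedding := by
    rw [Finset.map_sdiff, Finset.map_univ_equiv]
  rw [h3, h1, h4, Finset.prod_map, Finset.prod_map]
  simp only [h2, Finset.map_eq_empty]

theorem det_expand {A : Type} [CommRing A] (p : ℕ) (w v : ZMod n → A) :
    (cir w + (p : A) • cir v).det = (cir w).det + ∑ x, FT p w v x := by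
  classical
  rw [Matrix.det_apply', Matrix.det_apply', Fintype.sum_prod_type, ← Finset.sum_add_distrib]
  refine Finset.sum_congr rfl fun σ _ => ?_
  have h1 : ∀ j, (cir w + (p : A) • cir v) (σ j) j = (p : A) * v (j - σ j) + w (j - σ j) := by
    intro j
    rw [Matrix.add_apply, Matrix.smul_apply, smul_eq_mul]
    show w (j - σ j) + (p : A) * v (j - σ j) = _
    rw [add_comm]
  have h2 : ∀ j, cir w (σ j) j = w (j - σ j) := fun j => rfl
  simp_rw [h1, h2]
  rw [Finset.prod_add, Finset.powerset_univ]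
  have h3 : ∀ S : Finset (ZMod n), (∏ j ∈ S, (p : A) * v (j - σ j)) * ∏ j ∈ univ \ S, w (j - σ j) =
      (if S = ∅ then ∏ j, w (j - σ j) else 0) + (if S = ∅ then 0 else
        (∏ j ∈ S, (p : A) * v (j - σ j)) * ∏ j ∈ univ \ S, w (j - σ j)) := by
    intro S
    by_cases hS : S = ∅
    · subst hS; simp
    · rw [if_neg hS, if_neg hS, zero_add]
  rw [Finset.sum_congr rfl fun S _ => h3 S, Finset.sum_add_distrib, Finset.sum_ite_eq' univ ∅,
    if_pos (Finset.mem_univ _), mul_add]
  congr 1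
  rw [Finset.mul_sum]
  refine Finset.sum_congr rfl fun S _ => ?_
  unfold FT
  show _ = if S = ∅ then 0 else _
  by_cases hS : S = ∅
  · rw [if_pos hS, if_pos hS, mul_zero]
  · rw [if_neg hS, if_neg hS]

theorem card_ge {p i m r : ℕ} (hp : p.Prime) (hm : 1 ≤ m) (hn : n = p ^ i * m) (hr : r ≤ i)
    (S : Finset (ZMod n)) (hS : S ≠ ∅)
    (h : S.map (Equiv.addRight ((p ^ r : ℕ) * (m : ZMod n))).toEmbedding = S) :
    p ^ (i - r) ≤ S.card := by
  classical
  obtain ⟨s, hs⟩ := Finset.nonempty_iff_ne_empty.2 hS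
  have h1 : ∀ a ∈ S, a + (p ^ r : ℕ) * (m : ZMod n) ∈ S := by
    intro a ha
    rw [← h]
    exact Finset.mem_map_of_mem _ ha
  have h2 : ∀ j : ℕ, s + (j : ZMod n) * ((p ^ r : ℕ) * (m : ZMod n)) ∈ S := by
    intro j
    induction j with
    | zero => rw [Nat.cast_zero, zero_mul, add_zero]; exact hs
    | succ j ih =>
      have := h1 _ ih
      rw [Nat.cast_succ, add_mul, one_mul, ← add_assoc]
      exact this
  have h3 : (Finset.range (p ^ (i - r))).card ≤ S.card := by
    refine Finset.card_le_card_of_injOn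
      (fun j : ℕ => s + (j : ZMod n) * ((p ^ r : ℕ) * (m : ZMod n))) (fun j _ => h2 j) ?_
    intro a ha b hb hab
    have hab' : (a : ZMod n) * ((p ^ r : ℕ) * (m : ZMod n)) =
        (b : ZMod n) * ((p ^ r : ℕ) * (m : ZMod n)) := add_left_cancel hab
    have h4 : ((a * (p ^ r * m) : ℕ) : ZMod n) = ((b * (p ^ r * m) : ℕ) : ZMod n) := by
      push_cast
      push_cast at hab'
      exact hab'
    rw [ZMod.natCast_eq_natCast_iff] at h4
    have h5 : n = p ^ (i - r) * (p ^ r * m) := by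
      rw [hn, ← mul_assoc, ← pow_add, Nat.sub_add_cancel hr]
    have hpos : 0 < p ^ r * m := Nat.mul_pos (pow_pos hp.pos r) hm
    rw [h5] at h4
    have h6 : a ≡ b [MOD p ^ (i - r)] := Nat.ModEq.mul_right_cancel' hpos.ne' h4
    have ha' := Finset.mem_range.1 (Finset.mem_coe.1 ha)
    have hb' := Finset.mem_range.1 (Finset.mem_coe.1 hb)
    exact Nat.ModEq.eq_of_lt_of_lt h6 ha' hb'
  rwa [Finset.card_range] at h3

theorem key (hOrb : TaskOrb) {p i m : ℕ} (hp : p.Prime) (hm : 1 ≤ m) (hn : n = p ^ i * m)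
    {A : Type} [CommRing A] (w v : ZMod n → A) :
    ∃ E : A, (cir w + (p : A) • cir v).det = (cir w).det + (p : A) ^ (i + 1) * E := by
  classical
  have h1 : ∑ x, FT p w v x ∈ (Ideal.span {(p : A) ^ (i + 1)}).toAddSubgroup := by
    refine hOrb p i hp _ A (T (m : ZMod n)) (FT p w v) _ ?_ (fun x => FT_T p w v _ x) ?_
    · ext1 x
      rw [T_pow]
      have h2 : ((p ^ i : ℕ) : ZMod n) * (m : ZMod n) = 0 := by
        rw [← Nat.cast_mul, ← hn, ZMod.natCast_self]
      rw [h2, Tf_zero]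
      rfl
    · intro x r hr hx
      rw [T_pow] at hx
      show (p ^ r) • FT p w v x ∈ Ideal.span {(p : A) ^ (i + 1)}
      rw [Ideal.mem_span_singleton]
      unfold FT
      split_ifs with hS
      · rw [smul_zero]; exact dvd_zero _
      · have h3 := card_ge hp hm hn hr x.2 hS (congrArg Prod.snd hx)
        have h4 : i - r < p ^ (i - r) := Nat.lt_pow_self hp.one_lt
        have h5 : i + 1 ≤ r + x.2.card := by omega
        rw [Finset.prod_mul_distrib, Finset.prod_const, nsmul_eq_mul, Nat.cast_pow]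
        refine (pow_dvd_pow (p : A) h5).trans ?_
        rw [pow_add]
        refine Dvd.intro ((Equiv.Perm.sign x.1 : A) * ((∏ j ∈ x.2, v (j - x.1 j)) *
          ∏ j ∈ univ \ x.2, w (j - x.1 j))) ?_
        ring
  have h6 : ∑ x, FT p w v x ∈ Ideal.span {(p : A) ^ (i + 1)} := h1
  rw [Ideal.mem_span_singleton] at h6
  obtain ⟨E, hE⟩ := h6
  exact ⟨E, by rw [det_expand, hE]⟩

theorem main (hOrb : TaskOrb) (hBr : TaskBridge) : TaskPL := by
  intro p i m hp hm A _ f g
  haveI : NeZero (p ^ i * m) := ⟨(Nat.mul_pos (pow_pos hp.pos i) hm).ne'⟩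
  obtain ⟨-, -, h⟩ := hBr (p ^ i * m) A
  obtain ⟨w, hw⟩ := h f
  obtain ⟨v, hv⟩ := h g
  obtain ⟨E, hE⟩ := key hOrb hp hm rfl w v
  refine ⟨E, ?_⟩
  rw [dd_eq, dd_eq, map_add, map_mul, aeval_C, hw, hv, ← hE, Algebra.algebraMap_eq_smul_one,
    smul_mul_assoc, one_mul]

end Pool.Agent.CR257.PL
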