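import Pool.Agent.CR257.Stmts

set_option autoImplicit false

namespace Pool.Agent.CR257.Psi

open Polynomial

theorem frob_expand (p : ℕ) [hp : Fact p.Prime] :
    Frob p ((expand ℤ p : ℤ[X] →ₐ[ℤ] ℤ[X]) : ℤ[X] →+* ℤ[X]) := by
  intro a
  have h1 : (expand ℤ p a - a ^ p).map (Int.castRingHom (ZMod p)) = 0 := by
    rw [Polynomial.map_sub, Polynomial.map_pow, Polynomial.map_expand, ZMod.expand_card, sub_self]
  have h2 : C (p : ℤ) ∣ expand ℤ p a - a ^ p := by
    rw [Polynomial.C_dvd_iff_dvd_coeff]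
    intro i
    have h3 := congrArg (fun f => Polynomial.coeff f i) h1
    simp only [Polynomial.coeff_map, Polynomial.coeff_zero, eq_intCast] at h3
    exact (ZMod.intCast_zmod_eq_zero_iff_dvd _ _).1 h3
  obtain ⟨c, hc⟩ := h2
  refine ⟨c, ?_⟩
  have h4 : (p : ℤ[X]) = C (p : ℤ) := by simp
  have h5 : ((expand ℤ p : ℤ[X] →ₐ[ℤ] ℤ[X]) : ℤ[X] →+* ℤ[X]) a = expand ℤ p a := rfl
  rw [h4, h5, ← hc]
  ring

theorem main (hFC : TaskFC) (hD : TaskDwork) (hW : TaskWitt) (hV : TaskVal) (hPL : TaskPL) :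
    TaskPsi := by
  intro p j hp hj
  have hp0 : (p : ℤ[X]) ≠ 0 := by
    exact_mod_cast hp.out.ne_zero
  obtain ⟨w, hw⟩ := hD p ℤ[X] ((expand ℤ p : ℤ[X] →ₐ[ℤ] ℤ[X]) : ℤ[X] →+* ℤ[X])
    (fun a ha => (mul_eq_zero.1 ha).resolve_left hp0) (frob_expand p)
    (fun i => dd (FF p j (X : ℤ[X])) (p ^ i)) (fun i => by
      obtain ⟨E, hE⟩ := hFC p i 1 hp.out le_rfl ℤ[X] _ (frob_expand p) (FF p j (X : ℤ[X]))
      rw [mul_one, mul_one] at hE
      exact ⟨E, hE⟩)
  have hg : ∀ i, ∑ l ∈ Finset.range (i + 1), (p : ℤ[X]) ^ l * w.coeff l ^ (p ^ (i - l)) =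
      dd (FF p j (X : ℤ[X])) (p ^ i) := by
    intro i
    rw [← (hW p i ℤ[X]).2 w, hw i]
  have hone : ∀ i, i < j → dd (FF p j (X : ℤ[X])) (p ^ i) = 1 := (hV p j hp.out hj ℤ[X] X).1
  have h0 : w.coeff 0 = 1 := by
    have := hg 0
    rw [hone 0 (by omega)] at this
    simpa using this
  have hz : ∀ i, 1 ≤ i → i < j → w.coeff i = 0 := by
    intro i
    induction i using Nat.strong_induction_on with
    | _ i ih =>
      intro h1 h2
      have h3 := hg i
      rw [hone i h2, Finset.sum_range_succ, Nat.sub_self, pow_zero, pow_one,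
        ← Nat.sub_add_cancel h1, Finset.sum_range_succ'] at h3
      rw [Nat.sub_add_cancel h1] at h3
      have h4 : ∑ l ∈ Finset.range (i - 1), (p : ℤ[X]) ^ (l + 1) * w.coeff (l + 1) ^
          (p ^ (i - (l + 1))) = 0 := by
        refine Finset.sum_eq_zero fun l hl => ?_
        have hl' := Finset.mem_range.1 hl
        rw [ih (l + 1) (by omega) (by omega) (by omega), zero_pow (pow_ne_zero _ hp.out.ne_zero),
          mul_zero]
      rw [h4, h0, one_pow, pow_zero, one_mul, zero_add] at h3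
      have h5 : (p : ℤ[X]) ^ i * w.coeff i = 0 := by linear_combination h3
      exact (mul_eq_zero.1 h5).resolve_left (pow_ne_zero _ hp0)
  obtain ⟨E, hE⟩ := hPL p j 1 hp.out le_rfl ℤ[X] (1 + C X * vv ℤ[X] p j)
    (-(C X * vv ℤ[X] p (j - 1)))
  have hF : (1 + C X * vv ℤ[X] p j : ℤ[X][X]) + C (p : ℤ[X]) * (-(C X * vv ℤ[X] p (j - 1))) =
      FF p j (X : ℤ[X]) := by
    unfold FF
    ring
  rw [hF, mul_one, (hV p j hp.out hj ℤ[X] X).2] at hE
  refine ⟨w, E, hw, ⟨h0, hz⟩, ?_⟩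
  have h3 := hg j
  rw [hE, Finset.sum_range_succ, Nat.sub_self, pow_zero, pow_one,
    ← Nat.sub_add_cancel hj, Finset.sum_range_succ'] at h3
  rw [Nat.sub_add_cancel hj] at h3
  have h4 : ∑ l ∈ Finset.range (j - 1), (p : ℤ[X]) ^ (l + 1) * w.coeff (l + 1) ^
      (p ^ (j - (l + 1))) = 0 := by
    refine Finset.sum_eq_zero fun l hl => ?_
    have hl' := Finset.mem_range.1 hl
    rw [hz (l + 1) (by omega) (by omega), zero_pow (pow_ne_zero _ hp.out.ne_zero),
      mul_zero]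
  rw [h4, h0, one_pow, pow_zero, one_mul, zero_add] at h3
  have h5 : (p : ℤ[X]) ^ j * w.coeff j = (p : ℤ[X]) ^ j * (X + (p : ℤ[X]) * E) := by
    linear_combination h3
  have h6 := mul_left_cancel₀ (pow_ne_zero j hp0) h5
  rw [h6]
  simp

end Pool.Agent.CR257.Psi
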