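import Pool.Agent.CR257.Stmts
set_option autoImplicit false

namespace Pool.Agent.CR257.Red
open Pool.Agent.CR257 IsLocalRing

theorem main : Pool.Agent.CR257.TaskRed := by
  intro n _ R _ _ _
  classical
  obtain ⟨σ, hσ⟩ := (IsLocalRing.residue_surjective (R := R)).hasRightInverse
  have hmem : ∀ r : R, r - σ (residue R r) ∈ maximalIdeal R := by
    intro r
    rw [← residue_eq_zero_iff, map_sub, hσ, sub_self]
  have hunit : ∀ a : ZMod n → R, IsUnit (cir a).det ↔
      IsUnit (cir (fun i => residue R (a i))).det := by
    intro a
    have h1 : (cir (fun i => residue R (a i))) = (cir a).map (residue R) := by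
      ext i j; simp [cir]
    have h2 : (cir (fun i => residue R (a i))).det = residue R (cir a).det := by
      rw [h1, RingHom.map_det]; rfl
    rw [h2]
    exact (isUnit_map_iff (residue R) _).symm
  have hres : ∀ (x : ResidueField R) (y : maximalIdeal R), residue R (σ x + y) = x := by
    intro x y
    rw [map_add, hσ, (residue_eq_zero_iff (y : R)).2 y.2, add_zero]
  let E : {a : ZMod n → R // IsUnit (cir a).det} ≃
      (ZMod n → maximalIdeal R) × {b : ZMod n → ResidueField R // IsUnit (cir b).det} :=
    { toFun := fun a => (fun i => ⟨a.1 i - σ (residue R (a.1 i)), hmem _⟩,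
        ⟨fun i => residue R (a.1 i), (hunit _).1 a.2⟩)
      invFun := fun x => ⟨fun i => σ (x.2.1 i) + x.1 i, (hunit _).2 (by
        have : (fun i => residue R (σ (x.2.1 i) + x.1 i)) = x.2.1 := by
          ext i; exact hres _ _
        rw [this]; exact x.2.2)⟩
      left_inv := by
        intro a
        apply Subtype.ext
        funext i
        simp
      right_inv := by
        rintro ⟨x, y⟩
        apply Prod.ext
        · funext i
          apply Subtype.ext
          simp only [hres]
          ring
        · apply Subtype.ext
          funext i
          simp only [hres] }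
  unfold uu
  rw [← Nat.card_coe_set_eq, ← Nat.card_coe_set_eq]
  have h := Nat.card_congr E
  rw [Nat.card_prod] at h
  have h3 : Nat.card (ZMod n → maximalIdeal R) = Nat.card (maximalIdeal R) ^ n := by
    rw [Nat.card_fun, Nat.card_zmod]
  rw [h3] at h
  exact h

end Pool.Agent.CR257.Red
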