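import Pool.Agent.CR257.Stmts

/-!
# TaskSub: circulant determinants lie in the ghost set
-/

set_option autoImplicit false

namespace Pool.Agent.CR257.Sub

open Pool.Agent.CR257

/-- `MvPolynomial.expand p` is a lift of the Frobenius. -/
lemma frob_expand (p : ℕ) (hp : p.Prime) :
    Frob p (MvPolynomial.expand p : MvPolynomial ℕ ℤ →ₐ[ℤ] MvPolynomial ℕ ℤ).toRingHom := by
  intro a
  change ∃ c, MvPolynomial.expand p a = a ^ p + p * c
  induction a using MvPolynomial.induction_on with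
  | C z =>
    have h : (p : ℤ) ∣ z - z ^ p := by
      have := Fact.mk hp
      rw [← ZMod.intCast_zmod_eq_zero_iff_dvd] 
      push_cast
      rw [ZMod.pow_card, sub_self]
    obtain ⟨c, hc⟩ := h
    refine ⟨MvPolynomial.C c, ?_⟩
    have : z = z ^ p + p * c := by linarith
    rw [MvPolynomial.expand_C]
    conv_lhs => rw [this]
    simp
  | add a b ha hb =>
    obtain ⟨c, hc⟩ := ha
    obtain ⟨d, hd⟩ := hb
    obtain ⟨r, hr⟩ := exists_add_pow_prime_eq hp a b
    refine ⟨c + d - a * b * r, ?_⟩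
    rw [map_add, hc, hd, hr]
    ring
  | mul_X a n ha =>
    obtain ⟨c, hc⟩ := ha
    refine ⟨c * MvPolynomial.X n ^ p, ?_⟩
    rw [map_mul, hc, MvPolynomial.expand_X, mul_pow]
    ring

lemma D_map {A R : Type} [CommRing A] [CommRing R] (φ : A →+* R) (p k : ℕ) {y : A}
    (hy : y ∈ D p k A) : φ y ∈ D p k R := by
  obtain ⟨b, hb⟩ := hy
  refine ⟨fun j => φ (b j), ?_⟩
  rw [hb, map_sum]
  refine Finset.sum_congr rfl fun j _ => ?_
  simp

theorem main (hFC : TaskFC) (hDwork : TaskDwork) (hWitt : TaskWitt) (hMul : TaskMul) :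
    TaskSub := by
  intro p k m hp hm R _ f
  have := Fact.mk hp
  set A := MvPolynomial ℕ ℤ with hA
  set φ : A →+* A := (MvPolynomial.expand p : MvPolynomial ℕ ℤ →ₐ[ℤ] MvPolynomial ℕ ℤ).toRingHom
    with hφ
  have hfr : Frob p φ := frob_expand p hp
  set F : Polynomial A := ∑ i ∈ Finset.range (f.natDegree + 1),
    Polynomial.C (MvPolynomial.X i : A) * Polynomial.X ^ i with hF
  obtain ⟨w, hw⟩ := hDwork p A φ (by
    intro a ha
    have hp0 : ((p : ℕ) : A) ≠ 0 := by exact_mod_cast hp.ne_zero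
    exact (mul_eq_zero.mp ha).resolve_left hp0) hfr (fun i => dd F (p ^ i * m)) (by
    intro i
    exact hFC p i m hp hm A φ hfr F)
  have h1 : dd F (p ^ k * m) ∈ D p k A := ((hWitt p k A).1 _).2 ⟨w, hw k⟩
  set ψ : A →+* R := (MvPolynomial.eval₂Hom (Int.castRingHom R) (fun i => f.coeff i)) with hψ
  have h2 : F.map ψ = f := by
    rw [hF, Polynomial.map_sum]
    conv_rhs => rw [f.as_sum_range_C_mul_X_pow]
    refine Finset.sum_congr rfl fun i _ => ?_
    rw [Polynomial.map_mul, Polynomial.map_pow, Polynomial.map_X, Polynomial.map_C]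
    have : ψ (MvPolynomial.X i : MvPolynomial ℕ ℤ) = f.coeff i := by
      rw [hψ]; exact MvPolynomial.eval₂Hom_X' _ _ _
    rw [this]
  have h3 := (hMul (p ^ k * m) (Nat.mul_pos (pow_pos hp.pos k) hm) A R ψ).2.2.1 F
  rw [h2] at h3
  rw [h3]
  exact D_map ψ p k h1

end Pool.Agent.CR257.Sub
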