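import Pool.Agent.CR257.Stmts

set_option autoImplicit false

namespace Pool.Agent.CR257

open Polynomial

theorem taskSurj : TaskSurj := by
  intro p R _ _ h c hp
  have hinj : Function.Injective (fun b : R => b + p * aeval b h) := by
    intro b b' hb
    simp only at hb
    obtain ⟨t, ht⟩ : ∃ t, aeval b h - aeval b' h = (b - b') * t := by
      have h1 := Polynomial.sub_dvd_eval_sub b b' (h.map (algebraMap ℤ R))
      rw [eval_map_algebraMap, eval_map_algebraMap] at h1
      exact h1
    have h2 : (b - b') * (1 + p * t) = 0 := by linear_combination hb - p * ht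
    have h3 : IsUnit (1 + p * t) := ((Commute.all (p : R) t).isNilpotent_mul_right hp).isUnit_one_add
    have h4 : b - b' = 0 := (h3.mul_left_eq_zero).1 h2
    exact sub_eq_zero.1 h4
  obtain ⟨b, hb⟩ := Finite.surjective_of_injective hinj c
  exact ⟨b, hb⟩

end Pool.Agent.CR257
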