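import Pool.Agent.CR257.Stmts

set_option autoImplicit false

namespace Pool.Agent.CR257

open Polynomial

theorem cir_injective (n : ℕ) (R : Type) :
    Function.Injective (cir : (ZMod n → R) → Matrix (ZMod n) (ZMod n) R) := by
  intro a b h
  funext j
  have h1 := congrFun (congrFun h 0) j
  simpa [cir] using h1

theorem taskFib (hB : TaskBridge) : TaskFib := by
  classical
  intro n _ R _ _
  have hFR := Fintype.ofFinite R
  obtain ⟨-, hB1, hB2⟩ := hB n R
  -- the matrices
  let S : R → Set (Matrix (ZMod n) (ZMod n) R) := fun z =>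
    {A | (∃ a : ZMod n → R, A = cir a) ∧ A.det = z}
  have hS : ∀ z, cc n R z = (S z).ncard := fun z => rfl
  have hH : ∀ z, z ∈ H n R ↔ ∃ f : R[X], (aeval (P n R) f).det = z := by
    intro z
    unfold H
    simp only [dd_eq, Set.mem_ofPred_eq]
  have hcirc : ∀ (f : R[X]), ∃ a : ZMod n → R, aeval (P n R) f = cir a := hB2
  refine ⟨fun y hy => ?_, fun y hy hyu => ?_⟩
  · rw [hS]
    have : S y = ∅ := by
      ext A
      simp only [S, Set.mem_ofPred_eq, Set.mem_empty_iff_false, iff_false]
      rintro ⟨⟨a, rfl⟩, hdet⟩
      obtain ⟨f, hf⟩ := hB1 a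
      exact hy ((hH y).2 ⟨f, by rw [hf]; exact hdet⟩)
    rw [this, Set.ncard_empty]
  · -- all fibres over units are equal
    have key : ∀ z ∈ H n R, IsUnit z → (S z).ncard = (S 1).ncard := by
      intro z hz hzu
      obtain ⟨f, hf⟩ := (hH z).1 hz
      set M := aeval (P n R) f with hMdef
      have hMu : IsUnit M := by
        rw [Matrix.isUnit_iff_isUnit_det, hf]
        exact hzu
      obtain ⟨u, hu⟩ := hMu
      obtain ⟨k, hk0, hk⟩ : ∃ k : ℕ, 0 < k ∧ u ^ k = 1 :=
        ⟨orderOf u, orderOf_pos u, pow_orderOf_eq_one u⟩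
      have hMk : M ^ (k - 1) * M = 1 := by
        rw [← pow_succ, Nat.sub_add_cancel hk0, ← hu, ← Units.val_pow_eq_pow_val, hk,
          Units.val_one]
      have hMk' : M * M ^ (k - 1) = 1 := by
        rw [← pow_succ', Nat.sub_add_cancel hk0, ← hu, ← Units.val_pow_eq_pow_val, hk,
          Units.val_one]
      have himg : S z = (fun A => A * M) '' S 1 := by
        ext A
        constructor
        · rintro ⟨⟨a, rfl⟩, hdet⟩
          obtain ⟨g, hg⟩ := hB1 a
          refine ⟨cir a * M ^ (k - 1), ⟨?_, ?_⟩, ?_⟩
          · obtain ⟨b, hb⟩ := hcirc (g * f ^ (k - 1))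
            refine ⟨b, ?_⟩
            rw [← hb, map_mul, map_pow, hg]
          · have h1 : (cir a * M ^ (k - 1)).det * z = z := by
              rw [← hf, ← Matrix.det_mul, mul_assoc, hMk, mul_one, hdet, hf]
            exact hzu.mul_right_cancel (h1.trans (one_mul z).symm)
          · change cir a * M ^ (k - 1) * M = cir a
            rw [mul_assoc, hMk, mul_one]
        · rintro ⟨A', ⟨⟨a, rfl⟩, hdet⟩, rfl⟩
          obtain ⟨g, hg⟩ := hB1 a
          refine ⟨?_, ?_⟩
          · obtain ⟨b, hb⟩ := hcirc (g * f)
            refine ⟨b, ?_⟩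
            change cir a * M = cir b
            rw [← hb, map_mul, hg]
          · change (cir a * M).det = z
            rw [Matrix.det_mul, hdet, hf, one_mul]
      rw [himg, Set.ncard_image_of_injective]
      intro A A' h
      have h' : A * M = A' * M := h
      calc A = A * (M * M ^ (k - 1)) := by rw [hMk', mul_one]
        _ = A' * (M * M ^ (k - 1)) := by rw [← mul_assoc, h', mul_assoc]
        _ = A' := by rw [hMk', mul_one]
    have hcard : ∀ z, (S z).ncard =
        (Finset.univ.filter (fun a : ZMod n → R => (cir a).det = z)).card := by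
      intro z
      have h1 : S z = cir '' ((Finset.univ.filter
          (fun a : ZMod n → R => (cir a).det = z) : Finset (ZMod n → R)) : Set (ZMod n → R)) := by
        ext A
        simp only [S, Set.mem_ofPred_eq, Finset.coe_filter, Finset.mem_univ, true_and,
          Set.mem_image]
        constructor
        · rintro ⟨⟨a, rfl⟩, hdet⟩
          exact ⟨a, hdet, rfl⟩
        · rintro ⟨a, hdet, rfl⟩
          exact ⟨⟨a, rfl⟩, hdet⟩
      rw [h1, Set.ncard_image_of_injective _ (cir_injective n R), Set.ncard_coe_finset]
    let T : Finset R := Finset.univ.filter fun z => z ∈ H n R ∧ IsUnit z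
    have hT : {z : R | z ∈ H n R ∧ IsUnit z}.ncard = T.card := by
      have h1 : {z : R | z ∈ H n R ∧ IsUnit z} = (T : Set R) := by
        ext z
        simp [T]
      rw [h1, Set.ncard_coe_finset]
    have huu : uu n R = (Finset.univ.filter
        (fun a : ZMod n → R => IsUnit (cir a).det)).card := by
      unfold uu
      have h1 : {a : ZMod n → R | IsUnit (cir a).det} = ((Finset.univ.filter
          (fun a : ZMod n → R => IsUnit (cir a).det) : Finset (ZMod n → R)) :
            Set (ZMod n → R)) := by
        ext a
        simp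
      rw [h1, Set.ncard_coe_finset]
    rw [hS, key y hy hyu, hT, huu, Finset.card_eq_sum_card_fiberwise
      (f := fun a : ZMod n → R => (cir a).det) (t := T)]
    · have h2 : ∀ z ∈ T, ((Finset.univ.filter
          (fun a : ZMod n → R => IsUnit (cir a).det)).filter
            (fun a : ZMod n → R => (cir a).det = z)).card = (S 1).ncard := by
        intro z hz
        obtain ⟨-, hz1, hz2⟩ := Finset.mem_filter.1 hz
        rw [← key z hz1 hz2, hcard z]
        congr 1
        ext a
        simp only [Finset.mem_filter, Finset.mem_univ, true_and, and_iff_right_iff_imp]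
        rintro rfl
        exact hz2
      rw [Finset.sum_congr rfl h2, Finset.sum_const, smul_eq_mul, mul_comm]
    · intro a ha
      have ha' : IsUnit (cir a).det := by simpa using ha
      obtain ⟨f, hf⟩ := hB1 a
      have : (cir a).det ∈ H n R := (hH _).2 ⟨f, by rw [hf]⟩
      simp [T, this, ha']

end Pool.Agent.CR257
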