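import Pool.Agent.CR257.Stmts

set_option autoImplicit false

namespace Pool.Agent.CR257.UnitD

open Pool.Agent.CR257 Polynomial

/-- From the ghost formula, `TaskFilt`, closure of `H` and multiplicativity. -/
theorem main (hW : TaskWitt) (hF : TaskFilt) (hU : TaskUnitH) (hM : TaskMul) : TaskUnitD := by
  intro p k hp R _ _ hnil y hy hyu
  have hp1 : 1 ≤ p ^ k := Nat.one_le_pow _ _ hp.out.pos
  obtain ⟨x, hx⟩ := ((hW p k R).1 y).1 hy
  have hx' := (hW p k R).2 x
  rw [hx, Finset.sum_range_succ'] at hx'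
  simp only [pow_zero, one_mul, Nat.sub_zero] at hx'
  -- the coefficient 0 is a unit
  have hN : IsNilpotent (-(∑ j ∈ Finset.range k,
      (p : R) ^ (j + 1) * x.coeff (j + 1) ^ (p ^ (k - (j + 1))))) := by
    refine IsNilpotent.neg (isNilpotent_sum fun j _ => ?_)
    have : (p : R) ^ (j + 1) * x.coeff (j + 1) ^ (p ^ (k - (j + 1))) =
        (p : R) * ((p : R) ^ j * x.coeff (j + 1) ^ (p ^ (k - (j + 1)))) := by ring
    rw [this]
    exact (Commute.all _ _).isNilpotent_mul_right hnil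
  have h0 : IsUnit (x.coeff 0 ^ (p ^ k)) := by
    have h1 : x.coeff 0 ^ (p ^ k) = y + -(∑ j ∈ Finset.range k,
        (p : R) ^ (j + 1) * x.coeff (j + 1) ^ (p ^ (k - (j + 1)))) := by
      rw [hx']; ring
    rw [h1]
    exact hN.isUnit_add_left_of_commute hyu (Commute.all _ _)
  have h0' : IsUnit (x.coeff 0) := (isUnit_pow_iff (by omega)).1 h0
  obtain ⟨u, hu⟩ := h0'
  set v : R := ((u⁻¹ : Rˣ) : R) with hv
  have ha0 : (WittVector.teichmuller p v * x).coeff 0 = 1 := by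
    rw [WittVector.mul_coeff_zero, WittVector.teichmuller_coeff_zero, ← hu, hv, Units.inv_mul]
  have h2 := hF p k R hnil _ ha0
  rw [map_mul, WittVector.ghostComponent_teichmuller, hx] at h2
  have h3 : (x.coeff 0) ^ (p ^ k) ∈ H (p ^ k) R :=
    ⟨C (x.coeff 0), (hM (p ^ k) hp1 R R (RingHom.id R)).2.2.2 _⟩
  have h4 := (hU (p ^ k) hp1 R).2.1 _ _ h3 h2
  have h5 : x.coeff 0 ^ (p ^ k) * (v ^ p ^ k * y) = y := by
    rw [← mul_assoc, ← mul_pow, ← hu, hv, Units.mul_inv, one_pow, one_mul]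
  rwa [h5] at h4

end Pool.Agent.CR257.UnitD
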