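import Pool.Agent.CR257.Stmts

set_option autoImplicit false

namespace Pool.Agent.CR257.UnitH
open Pool.Agent.CR257 Polynomial

theorem one_mem (n : ℕ) (hn : 1 ≤ n) (R : Type) [CommRing R] : (1 : R) ∈ H n R := by
  haveI : NeZero n := ⟨by omega⟩
  refine ⟨1, ?_⟩
  rw [dd_eq, map_one, Matrix.det_one]

theorem mul_mem (n : ℕ) (hn : 1 ≤ n) (R : Type) [CommRing R] (x y : R) (hx : x ∈ H n R)
    (hy : y ∈ H n R) : x * y ∈ H n R := by
  haveI : NeZero n := ⟨by omega⟩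
  obtain ⟨f, rfl⟩ := hx
  obtain ⟨g, rfl⟩ := hy
  refine ⟨f * g, ?_⟩
  rw [dd_eq, dd_eq, dd_eq, map_mul, Matrix.det_mul]

theorem pow_mem (n : ℕ) (hn : 1 ≤ n) (R : Type) [CommRing R] (x : R) (hx : x ∈ H n R) (k : ℕ) :
    x ^ k ∈ H n R := by
  induction k with
  | zero => rw [pow_zero]; exact one_mem n hn R
  | succ k ih => rw [pow_succ]; exact mul_mem n hn R _ _ ih hx

theorem main : TaskUnitH := by
  intro n hn R _ _
  refine ⟨one_mem n hn R, fun x y => mul_mem n hn R x y, ?_⟩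
  rintro x y ⟨u, rfl⟩ hx hxy
  have hpos : 0 < orderOf u := orderOf_pos u
  have h1 : (u : R) ^ (orderOf u - 1) * (u * y) = y := by
    rw [← mul_assoc, ← pow_succ, Nat.sub_add_cancel hpos, ← Units.val_pow_eq_pow_val,
      pow_orderOf_eq_one, Units.val_one, one_mul]
  rw [← h1]
  exact mul_mem n hn R _ _ (pow_mem n hn R _ hx _) hxy

end Pool.Agent.CR257.UnitH
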