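import Pool.Agent.CR257.Stmts

/-! MP_d6eb29_al blueprint: TaskUp. -/

set_option autoImplicit false

namespace Pool.Agent.CR257.Up

open Polynomial Pool.Agent.CR257

variable {R : Type} [CommRing R]

/-- the projection `ZMod (N m) → ZMod N` -/
def pr (N m : ℕ) : ZMod (N * m) →+* ZMod N := ZMod.castHom (Dvd.intro m rfl) (ZMod N)

def U (N m : ℕ) (R : Type) [CommRing R] : Matrix (ZMod (N * m)) (ZMod N) R :=
  Matrix.of fun i a => if pr N m i = a then 1 else 0

def V (N m : ℕ) (u : R) : Matrix (ZMod N) (ZMod (N * m)) R :=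
  Matrix.of fun a j => if pr N m j = a then u else 0

theorem fiber (N m : ℕ) [NeZero N] [NeZero (N * m)] (a : ZMod N) :
    (Finset.univ.filter (fun j : ZMod (N * m) => pr N m j = a)).card = m := by
  have hsurj : Function.Surjective (pr N m) := ZMod.castHom_surjective _
  have hc : ∀ b : ZMod N, (Finset.univ.filter (fun j : ZMod (N * m) => pr N m j = b)).card =
      (Finset.univ.filter (fun j : ZMod (N * m) => pr N m j = a)).card := by
    intro b
    obtain ⟨s, hs⟩ := hsurj (a - b)
    apply Finset.card_bij (fun j _ => j + s)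
    · intro j hj
      simp only [Finset.mem_filter, Finset.mem_univ, true_and] at hj ⊢
      rw [map_add, hj, hs]
      ring
    · intro j _ j' _ h
      exact add_right_cancel h
    · intro j hj
      simp only [Finset.mem_filter, Finset.mem_univ, true_and] at hj
      refine ⟨j - s, ?_, by ring⟩
      simp only [Finset.mem_filter, Finset.mem_univ, true_and]
      rw [map_sub, hj, hs]
      ring
  have hsum := Finset.card_eq_sum_card_fiberwise (f := fun j : ZMod (N * m) => pr N m j)
    (s := Finset.univ) (t := Finset.univ) (fun _ _ => Finset.mem_coe.2 (Finset.mem_univ _))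
  rw [Finset.sum_congr rfl (fun b _ => hc b), Finset.sum_const, Finset.card_univ,
    Finset.card_univ, ZMod.card, ZMod.card, smul_eq_mul] at hsum
  exact (Nat.eq_of_mul_eq_mul_left (Nat.pos_of_ne_zero (NeZero.ne N)) hsum).symm

theorem VU (N m : ℕ) [NeZero N] [NeZero (N * m)] (u : R) (hu : (m : R) * u = 1) :
    V N m u * U N m R = 1 := by
  ext a b
  rw [Matrix.mul_apply]
  simp only [V, U, Matrix.of_apply]
  by_cases hab : a = b
  · subst hab
    rw [Matrix.one_apply_eq]
    have : ∀ j : ZMod (N * m), ((if pr N m j = a then u else 0) * (if pr N m j = a then 1 else 0) : R)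
        = if pr N m j = a then u else 0 := by
      intro j
      split_ifs <;> simp
    rw [Finset.sum_congr rfl (fun j _ => this j), ← Finset.sum_filter, Finset.sum_const, fiber,
      nsmul_eq_mul, hu]
  · rw [Matrix.one_apply_ne hab]
    apply Finset.sum_eq_zero
    intro j _
    by_cases h1 : pr N m j = a
    · rw [if_neg (fun h2 => hab (h1.symm.trans h2)), mul_zero]
    · rw [if_neg h1, zero_mul]

theorem UV (N m : ℕ) [NeZero N] [NeZero (N * m)] (u : R) :
    U N m R * V N m u = cir (fun k => if pr N m k = 0 then u else 0) := by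
  ext i j
  rw [Matrix.mul_apply]
  simp only [V, U, cir, Matrix.of_apply]
  rw [Finset.sum_eq_single (pr N m i)]
  · rw [if_pos rfl, one_mul, map_sub]
    by_cases h : pr N m j = pr N m i
    · rw [if_pos h, if_pos (sub_eq_zero.2 h)]
    · rw [if_neg h, if_neg (fun h' => h (sub_eq_zero.1 h'))]
  · intro b _ hb
    rw [if_neg (fun h => hb h.symm), zero_mul]
  · intro h
    exact absurd (Finset.mem_univ _) h

theorem PU (N m : ℕ) [NeZero N] [NeZero (N * m)] :
    P (N * m) R * U N m R = U N m R * P N R := by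
  ext i a
  rw [Matrix.mul_apply, Matrix.mul_apply]
  simp only [P, U, Matrix.of_apply]
  rw [Finset.sum_eq_single (i + 1), Finset.sum_eq_single (pr N m i)]
  · rw [if_pos rfl, if_pos rfl, one_mul, one_mul, map_add, map_one]
    by_cases h : pr N m i + 1 = a
    · rw [if_pos h, if_pos h.symm]
    · rw [if_neg h, if_neg (fun h' => h h'.symm)]
  · intro b _ hb
    rw [if_neg (fun h => hb h.symm), zero_mul]
  · intro h
    exact absurd (Finset.mem_univ _) h
  · intro b _ hb
    rw [if_neg hb, zero_mul]
  · intro h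
    exact absurd (Finset.mem_univ _) h

theorem PkU (N m : ℕ) [NeZero N] [NeZero (N * m)] (k : ℕ) :
    P (N * m) R ^ k * U N m R = U N m R * P N R ^ k := by
  induction k with
  | zero => rw [pow_zero, pow_zero, Matrix.one_mul, Matrix.mul_one]
  | succ k ih => rw [pow_succ, Matrix.mul_assoc, PU, ← Matrix.mul_assoc, ih, Matrix.mul_assoc,
      ← pow_succ]

theorem fU (N m : ℕ) [NeZero N] [NeZero (N * m)] (f : R[X]) :
    aeval (P (N * m) R) f * U N m R = U N m R * aeval (P N R) f := by
  rw [aeval_eq_sum_range, aeval_eq_sum_range, Matrix.sum_mul, Matrix.mul_sum]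
  apply Finset.sum_congr rfl
  intro k _
  rw [Matrix.smul_mul, Matrix.mul_smul, PkU]

theorem main (hB : TaskBridge) : TaskUp := by
  intro N m hN hm R _ hmu y hy
  obtain ⟨f, hf⟩ := hy
  have i1 : NeZero N := ⟨by omega⟩
  have i2 : NeZero (N * m) := ⟨(Nat.mul_pos hN hm).ne'⟩
  obtain ⟨u, hu⟩ := hmu.exists_right_inv
  obtain ⟨e, he⟩ := (hB (N * m) R).2.1 (fun k => if pr N m k = 0 then u else 0)
  rw [← UV] at he
  refine ⟨1 + (f - 1) * e, ?_⟩
  rw [dd_eq] at hf ⊢
  rw [← hf, map_add, map_one, map_mul, map_sub, map_one, he, ← Matrix.mul_assoc,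
    Matrix.det_one_add_mul_comm, Matrix.sub_mul, Matrix.one_mul, fU, Matrix.mul_sub,
    ← Matrix.mul_assoc, VU N m u hu, Matrix.one_mul]
  congr 1
  abel

end Pool.Agent.CR257.Up
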