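import Pool.Agent.CR257.Stmts

set_option autoImplicit false

namespace Pool.Agent.CR257.Val

open Polynomial Finset

theorem P_pow {n : ℕ} [NeZero n] {A : Type} [CommRing A] (r : ℕ) (i j : ZMod n) :
    (P n A ^ r) i j = if j = i + r then 1 else 0 := by
  classical
  induction r generalizing j with
  | zero =>
    rw [pow_zero, Matrix.one_apply, Nat.cast_zero, add_zero]
    by_cases h : i = j
    · rw [if_pos h, if_pos h.symm]
    · rw [if_neg h, if_neg (Ne.symm h)]
  | succ r ih =>
    rw [pow_succ, Matrix.mul_apply]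
    have h1 : ∀ k, (P n A ^ r) i k * P n A k j =
        if k = i + r then (if j = i + (r + 1 : ℕ) then 1 else 0) else 0 := by
      intro k
      rw [ih k]
      by_cases hk : k = i + r
      · rw [if_pos hk, if_pos hk, one_mul]
        show (if j = k + 1 then (1 : A) else 0) = _
        rw [hk]
        push_cast
        rw [add_assoc]
      · rw [if_neg hk, if_neg hk, zero_mul]
    rw [Finset.sum_congr rfl fun k _ => h1 k, Finset.sum_ite_eq' univ, if_pos (Finset.mem_univ _)]

theorem sum_pow {n : ℕ} [NeZero n] {A : Type} [CommRing A] (hP : P n A ^ n = 1) (k : ℕ) :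
    ∑ t ∈ range (k * n), P n A ^ (t + 1) = (k : A) • ∑ t ∈ range n, P n A ^ (t + 1) := by
  induction k with
  | zero => simp
  | succ k ih =>
    rw [Nat.succ_mul, Finset.sum_range_add, ih, Nat.cast_succ, add_smul, one_smul]
    congr 1
    refine Finset.sum_congr rfl fun t _ => ?_
    rw [add_assoc, pow_add, mul_comm k n, pow_mul, hP, one_pow, one_mul]

theorem sum_ones {n : ℕ} [NeZero n] {A : Type} [CommRing A] (i j : ZMod n) :
    (∑ t ∈ range n, P n A ^ (t + 1)) i j = 1 := by
  classical
  rw [Matrix.sum_apply, Finset.sum_eq_single (j - i - 1).val]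
  · rw [P_pow, if_pos]
    push_cast
    rw [ZMod.natCast_zmod_val]
    ring
  · intro t ht hne
    rw [P_pow, if_neg]
    intro h
    apply hne
    have h1 : ((t : ℕ) : ZMod n) = j - i - 1 := by
      rw [h]; push_cast; ring
    rw [← h1, ZMod.val_natCast_of_lt (Finset.mem_range.1 ht)]
  · intro h
    exact absurd (Finset.mem_range.2 (ZMod.val_lt _)) h

theorem aeval_vv {n : ℕ} [NeZero n] {A : Type} [CommRing A] (p j : ℕ) :
    aeval (P n A) (vv A p j) = ∑ t ∈ range (p ^ j), P n A ^ (t + 1) := by
  unfold vv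
  rw [map_sum]
  refine Finset.sum_congr rfl fun t _ => ?_
  rw [map_pow, aeval_X]

theorem aeval_Cm {n : ℕ} [NeZero n] {A : Type} [CommRing A] (b : A) (f : A[X]) :
    aeval (P n A) (C b * f) = b • aeval (P n A) f := by
  rw [map_mul, aeval_C, Algebra.algebraMap_eq_smul_one, smul_mul_assoc, one_mul]

theorem main (hBr : TaskBridge) : TaskVal := by
  classical
  intro p j hp hj A _ b
  constructor
  · intro i hi
    haveI : NeZero (p ^ i) := ⟨(pow_pos hp.pos i).ne'⟩
    have hP := (hBr (p ^ i) A).1
    rw [dd_eq]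
    have h1 : aeval (P (p ^ i) A) (FF p j b) = 1 := by
      unfold FF
      rw [map_add, map_one, aeval_Cm, map_sub, aeval_Cm, aeval_vv, aeval_vv]
      have e1 : p ^ j = p ^ (j - i) * p ^ i := by rw [← pow_add, Nat.sub_add_cancel hi.le]
      have e2 : p ^ (j - 1) = p ^ (j - 1 - i) * p ^ i := by
        rw [← pow_add, Nat.sub_add_cancel (by omega)]
      rw [e1, e2, sum_pow hP, sum_pow hP, smul_smul, ← sub_smul]
      have e3 : ((p ^ (j - i) : ℕ) : A) - (p : A) * ((p ^ (j - 1 - i) : ℕ) : A) = 0 := by
        have e4 : p ^ (j - i) = p * p ^ (j - 1 - i) := by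
          rw [← pow_succ']
          congr 1
          omega
        rw [e4, Nat.cast_mul, sub_self]
      rw [e3, zero_smul, smul_zero, add_zero]
    rw [h1, Matrix.det_one]
  · haveI : NeZero (p ^ j) := ⟨(pow_pos hp.pos j).ne'⟩
    rw [dd_eq, map_add, map_one, aeval_Cm, aeval_vv]
    have h1 : (1 + b • ∑ t ∈ range (p ^ j), P (p ^ j) A ^ (t + 1)) =
        1 + Matrix.replicateCol Unit (fun _ => b) * Matrix.replicateRow Unit (fun _ => (1 : A)) := by
      congr 1
      ext s t
      rw [Matrix.smul_apply, sum_ones, Matrix.mul_apply]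
      simp
    rw [h1, Matrix.det_one_add_replicateCol_mul_replicateRow]
    simp [dotProduct, ZMod.card]

end Pool.Agent.CR257.Val
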