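import Pool.Agent.CR257.Stmts

set_option autoImplicit false

namespace Pool.Agent.CR257

open WittVector

private lemma FV {p : ℕ} [Fact p.Prime] {R : Type} [CommRing R] (j : ℕ) :
    ∀ t : WittVector p R, (frobenius^[j]) ((verschiebung^[j]) t) = t * (p : WittVector p R) ^ j := by
  induction j with
  | zero => intro t; simp
  | succ j ih =>
    intro t
    rw [Function.iterate_succ_apply, Function.iterate_succ_apply' verschiebung,
      frobenius_verschiebung]
    have h : ∀ (i : ℕ) (x : WittVector p R),
        (frobenius^[i]) (x * (p : WittVector p R)) = (frobenius^[i]) x * (p : WittVector p R) := by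
      intro i
      induction i with
      | zero => intro x; rfl
      | succ i ih => intro x; rw [Function.iterate_succ_apply, map_mul, map_natCast, ih,
          Function.iterate_succ_apply]
    rw [h, ih, pow_succ, mul_assoc]

private lemma iter_add {p : ℕ} [Fact p.Prime] {R : Type} [CommRing R] (j : ℕ) :
    ∀ s t : WittVector p R, (verschiebung^[j]) (s + t) =
      (verschiebung^[j]) s + (verschiebung^[j]) t := by
  induction j with
  | zero => intro s t; rfl
  | succ j ih => intro s t; simp only [Function.iterate_succ_apply', ih, map_add]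

private lemma coeff_one_add {p : ℕ} [Fact p.Prime] {R : Type} [CommRing R] (j : ℕ) (hj : 1 ≤ j)
    (s : WittVector p R) (i : ℕ) : (1 + (verschiebung^[j]) s).coeff i =
      (if i = 0 then 1 else 0) + (if i < j then 0 else s.coeff (i - j)) := by
  rw [coeff_add_of_disjoint]
  · congr 1
    · by_cases hi : i = 0
      · rw [if_pos hi, hi, one_coeff_zero]
      · rw [if_neg hi, one_coeff_eq_of_pos _ _ _ (Nat.pos_of_ne_zero hi)]
    · by_cases hi : i < j
      · rw [if_pos hi, iterate_verschiebung_coeff_eq_zero _ hi]
      · rw [if_neg hi]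
        obtain ⟨k, rfl⟩ : ∃ k, i = k + j := ⟨i - j, by omega⟩
        rw [iterate_verschiebung_coeff, Nat.add_sub_cancel]
  · intro n
    by_cases hn : n = 0
    · right
      exact iterate_verschiebung_coeff_eq_zero _ (by omega)
    · left
      exact one_coeff_eq_of_pos _ _ _ (Nat.pos_of_ne_zero hn)

private lemma exists_form {p : ℕ} [Fact p.Prime] {R : Type} [CommRing R] (j : ℕ) (hj : 1 ≤ j)
    (a : WittVector p R) (ha : One p j a) :
    ∃ s : WittVector p R, a = 1 + (verschiebung^[j]) s ∧ s.coeff 0 = a.coeff j := by
  refine ⟨WittVector.mk p (fun i => a.coeff (j + i)), ?_, ?_⟩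
  · ext i
    rw [coeff_one_add j hj]
    by_cases h0 : i = 0
    · subst h0
      rw [if_pos rfl, if_pos (by omega), ha.1, add_zero]
    · rw [if_neg h0]
      by_cases hi : i < j
      · rw [if_pos hi, ha.2 i (by omega) hi, add_zero]
      · rw [if_neg hi, WittVector.coeff_mk, zero_add]
        congr 1
        omega
  · rw [WittVector.coeff_mk, add_zero]

theorem taskVmul : TaskVmul := by
  intro p j _ hj R _ a z ha hz
  obtain ⟨s, rfl, hs⟩ := exists_form j hj a ha
  obtain ⟨t, rfl, ht⟩ := exists_form j hj z hz
  have hmul : (1 + (verschiebung^[j]) s) * (1 + (verschiebung^[j]) t) =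
      1 + (verschiebung^[j]) (s + t + s * (t * (p : WittVector p R) ^ j)) := by
    rw [iter_add, iter_add, ← FV j t, ← iterate_verschiebung_mul_left]
    ring
  rw [hmul, ← hs, ← ht]
  refine ⟨⟨?_, ?_⟩, ?_⟩
  · rw [coeff_one_add j hj, if_pos rfl, if_pos (by omega), add_zero]
  · intro i h1 h2
    rw [coeff_one_add j hj, if_neg (by omega), if_pos h2, add_zero]
  · rw [coeff_one_add j hj, if_neg (by omega), if_neg (by omega), Nat.sub_self, zero_add]
    have h : ∀ x : WittVector p R, x.coeff 0 = constantCoeff x := fun _ => rfl
    rw [h, h, h]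
    simp only [map_add, map_mul, map_pow, map_natCast]
    ring

end Pool.Agent.CR257
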