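import Pool.Agent.CR257.Stmts

set_option autoImplicit false

namespace Pool.Agent.CR257.Witt

theorem main : TaskWitt := by
  intro p k _ R _
  have h : ∀ x : WittVector p R, WittVector.ghostComponent k x =
      ∑ j ∈ Finset.range (k + 1), (p : R) ^ j * x.coeff j ^ (p ^ (k - j)) := by
    intro x
    rw [WittVector.ghostComponent_apply, aeval_wittPolynomial]
  refine ⟨fun y => ⟨?_, ?_⟩, h⟩
  · rintro ⟨b, rfl⟩
    exact ⟨WittVector.mk p b, by rw [h]; simp [WittVector.coeff_mk]⟩
  · rintro ⟨x, rfl⟩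
    exact ⟨x.coeff, h x⟩

end Pool.Agent.CR257.Witt
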